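import Mathlib

set_option autoImplicit false

namespace Pool.Agent.LibVeronese

variable {n r : ℕ}

/-- underlying multiset -/
def ms (s : Sym (Fin (n + 1)) r) : Multiset (Fin (n + 1)) := s.1

theorem card_ms (s : Sym (Fin (n + 1)) r) : Multiset.card (ms s) = r := s.2

/-- multiplicity -/
def cnt (s : Sym (Fin (n + 1)) r) (j : Fin (n + 1)) : ℕ := (ms s).count j

theorem sum_cnt (s : Sym (Fin (n + 1)) r) : ∑ j, cnt s j = r := by
  have h : ∑ j ∈ Finset.univ, (ms s).count j = Multiset.card (ms s) :=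
    Multiset.sum_count_eq_card (fun a _ => Finset.mem_univ a)
  rw [card_ms] at h
  exact h

theorem ext_cnt {s t : Sym (Fin (n + 1)) r} (h : ∀ j, cnt s j = cnt t j) : s = t := by
  apply Subtype.ext
  exact Multiset.ext.mpr h

/-- the pure power -/
def rep (r : ℕ) (k : Fin (n + 1)) : Sym (Fin (n + 1)) r := Sym.replicate r k

theorem cnt_rep (k j : Fin (n + 1)) : cnt (rep r k) j = if k = j then r else 0 := by
  show Multiset.count j (Multiset.replicate r k) = _
  rw [Multiset.count_replicate]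

theorem cnt_rep_self (k : Fin (n + 1)) : cnt (rep r k) k = r := by
  rw [cnt_rep, if_pos rfl]

theorem cnt_rep_ne {k j : Fin (n + 1)} (h : j ≠ k) : cnt (rep r k) j = 0 := by
  rw [cnt_rep, if_neg (fun h' => h h'.symm)]

theorem cnt_le (s : Sym (Fin (n + 1)) r) (j : Fin (n + 1)) : cnt s j ≤ r := by
  conv_rhs => rw [← sum_cnt s]
  exact Finset.single_le_sum (f := fun j => cnt s j) (fun _ _ => Nat.zero_le _) (Finset.mem_univ j)

theorem eq_rep_of_cnt {s : Sym (Fin (n + 1)) r} {k : Fin (n + 1)}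
    (h : ∀ j, j ≠ k → cnt s j = 0) : s = rep r k := by
  apply ext_cnt
  intro j
  by_cases hj : j = k
  · subst hj
    rw [cnt_rep_self]
    refine Eq.trans ?_ (sum_cnt s)
    symm
    apply Finset.sum_eq_single j
    · intro b _ hb
      exact h b hb
    · intro h'; exact absurd (Finset.mem_univ _) h'
  · rw [h j hj, cnt_rep_ne hj]

theorem eq_rep_of_cnt_self {s : Sym (Fin (n + 1)) r} {k : Fin (n + 1)}
    (h : cnt s k = r) : s = rep r k := by
  apply eq_rep_of_cnt
  intro j hj
  have h1 := sum_cnt s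
  rw [← Finset.add_sum_erase _ _ (Finset.mem_univ k), h] at h1
  have h2 : ∑ x ∈ Finset.univ.erase k, cnt s x = 0 := by omega
  rw [Finset.sum_eq_zero_iff] at h2
  exact h2 j (Finset.mem_erase.mpr ⟨hj, Finset.mem_univ _⟩)

/-- move one unit from `k` to `j` -/
def mv (s : Sym (Fin (n + 1)) r) (j k : Fin (n + 1)) : Sym (Fin (n + 1)) r :=
  if h : k ∈ ms s then Sym.mk (j ::ₘ (ms s).erase k) (by
    have h1 := Multiset.card_pos_iff_exists_mem.mpr ⟨k, h⟩
    rw [Multiset.card_cons, Multiset.card_erase_of_mem h]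
    rw [card_ms] at h1 ⊢
    exact Nat.succ_pred_eq_of_pos h1) else s

theorem cnt_mv {s : Sym (Fin (n + 1)) r} {j k : Fin (n + 1)} (h : 1 ≤ cnt s k)
    (hjk : j ≠ k) (i : Fin (n + 1)) :
    cnt (mv s j k) i = if i = j then cnt s i + 1 else if i = k then cnt s i - 1 else cnt s i := by
  have hmem : k ∈ ms s := Multiset.one_le_count_iff_mem.mp h
  unfold mv
  rw [dif_pos hmem]
  show Multiset.count i (j ::ₘ (ms s).erase k) = _
  rw [Multiset.count_cons]
  by_cases hij : i = j
  · subst hij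
    rw [if_pos rfl, if_pos rfl, Multiset.count_erase_of_ne hjk]
    rfl
  · rw [if_neg hij, if_neg hij, add_zero]
    by_cases hik : i = k
    · subst hik
      rw [if_pos rfl, Multiset.count_erase_self]
      rfl
    · rw [if_neg hik, Multiset.count_erase_of_ne hik]
      rfl

theorem cnt_mv_tgt {s : Sym (Fin (n + 1)) r} {j k : Fin (n + 1)} (h : 1 ≤ cnt s k)
    (hjk : j ≠ k) : cnt (mv s j k) j = cnt s j + 1 := by
  rw [cnt_mv h hjk, if_pos rfl]

theorem cnt_mv_src {s : Sym (Fin (n + 1)) r} {j k : Fin (n + 1)} (h : 1 ≤ cnt s k)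
    (hjk : j ≠ k) : cnt (mv s j k) k = cnt s k - 1 := by
  rw [cnt_mv h hjk, if_neg (fun h' => hjk h'.symm), if_pos rfl]

theorem cnt_mv_other {s : Sym (Fin (n + 1)) r} {j k i : Fin (n + 1)} (h : 1 ≤ cnt s k)
    (hjk : j ≠ k) (hij : i ≠ j) (hik : i ≠ k) : cnt (mv s j k) i = cnt s i := by
  rw [cnt_mv h hjk, if_neg hij, if_neg hik]

/-- `l` lies strictly between `j` and `k` in the cyclic order. -/
def cyc (j l k : Fin (n + 1)) : Prop := (j < l ∧ l < k) ∨ (l < k ∧ k < j) ∨ (k < j ∧ j < l)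

instance (j l k : Fin (n + 1)) : Decidable (cyc j l k) := by unfold cyc; infer_instance

theorem cyc_ne {j l k : Fin (n + 1)} (h : cyc j l k) : l ≠ j ∧ l ≠ k := by
  unfold cyc at h
  constructor
  · rintro rfl; omega
  · rintro rfl; omega

theorem cyc_total {j j' k : Fin (n + 1)} (h1 : j ≠ k) (h2 : j' ≠ k) (h3 : j ≠ j') :
    cyc j j' k ∨ cyc j' j k := by
  unfold cyc
  omega

/-- `γ` is obtained from `β` by staying or by an admissible step of type `k`. -/
def Tight (k : Fin (n + 1)) (β γ : Sym (Fin (n + 1)) r) : Prop :=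
  β = γ ∨ ∃ j, j ≠ k ∧ 1 ≤ cnt β k ∧ γ = mv β j k ∧ ∀ l, cyc j l k → cnt β l = 0

theorem Tight.cnt_eq {k : Fin (n + 1)} {β γ : Sym (Fin (n + 1)) r} (h : Tight k β γ)
    (hne : β ≠ γ) : cnt β k = cnt γ k + 1 := by
  rcases h with h | ⟨j, hjk, hk, rfl, -⟩
  · exact absurd h hne
  · rw [cnt_mv_src hk hjk]
    omega

theorem mv_mv {s : Sym (Fin (n + 1)) r} {j k : Fin (n + 1)} (h : 1 ≤ cnt s k)
    (hjk : j ≠ k) : mv (mv s j k) k j = s := by
  have h1 : 1 ≤ cnt (mv s j k) j := by rw [cnt_mv_tgt h hjk]; omega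
  apply ext_cnt
  intro i
  rw [cnt_mv h1 hjk.symm]
  by_cases hik : i = k
  · subst hik
    rw [if_pos rfl, cnt_mv_src h hjk]
    omega
  · rw [if_neg hik]
    by_cases hij : i = j
    · subst hij
      rw [if_pos rfl, cnt_mv_tgt h hjk]
      omega
    · rw [if_neg hij, cnt_mv_other h hjk hij hik]

theorem tight_rep {k : Fin (n + 1)} {β : Sym (Fin (n + 1)) r} (h : Tight k β (rep r k)) :
    β = rep r k := by
  rcases h with h | ⟨j, hjk, hk, he, -⟩
  · exact h
  · exfalso
    have h1 : cnt (rep r k) j = cnt β j + 1 := by rw [he, cnt_mv_tgt hk hjk]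
    rw [cnt_rep_ne hjk] at h1
    omega

theorem tight_unique {k : Fin (n + 1)} {β β' γ : Sym (Fin (n + 1)) r} (h : Tight k β γ)
    (h' : Tight k β' γ) (hne : β ≠ γ) (hne' : β' ≠ γ) : β = β' := by
  rcases h with h | ⟨j, hjk, hk, he, hc⟩
  · exact absurd h hne
  rcases h' with h' | ⟨j', hjk', hk', he', hc'⟩
  · exact absurd h' hne'
  have hjj : j = j' := by
    by_contra hjj
    rcases cyc_total hjk hjk' hjj with h1 | h1
    · have h2 : cnt γ j' = cnt β' j' + 1 := by rw [he', cnt_mv_tgt hk' hjk']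
      have h3 : cnt γ j' = cnt β j' := by
        rw [he, cnt_mv_other hk hjk (fun h => hjj h.symm) hjk']
      rw [hc _ h1] at h3
      omega
    · have h2 : cnt γ j = cnt β j + 1 := by rw [he, cnt_mv_tgt hk hjk]
      have h3 : cnt γ j = cnt β' j := by
        rw [he', cnt_mv_other hk' hjk' hjj hjk]
      rw [hc' _ h1] at h3
      omega
  subst hjj
  rw [← mv_mv hk hjk, ← mv_mv hk' hjk, ← he, ← he']

theorem tight_exists {k : Fin (n + 1)} {γ : Sym (Fin (n + 1)) r} (h : γ ≠ rep r k) :
    ∃ β, β ≠ γ ∧ Tight k β γ := by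
  classical
  have h1 : ∃ j, j ≠ k ∧ 1 ≤ cnt γ j := by
    by_contra hcon
    push Not at hcon
    apply h
    apply eq_rep_of_cnt
    intro j hj
    have := hcon j hj
    omega
  have h2 : ∃ j, j ≠ k ∧ 1 ≤ cnt γ j ∧ ∀ l, cyc j l k → cnt γ l = 0 := by
    by_cases hlt : ∃ j, j < k ∧ 1 ≤ cnt γ j
    · obtain ⟨j0, hj0⟩ := hlt
      obtain ⟨j, hj, hmax⟩ := Finset.exists_max_image
        (Finset.univ.filter fun j => j < k ∧ 1 ≤ cnt γ j) id
        ⟨j0, by simpa using hj0⟩
      simp only [Finset.mem_filter, Finset.mem_univ, true_and, id] at hj hmax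
      refine ⟨j, ne_of_lt hj.1, hj.2, ?_⟩
      intro l hl
      by_contra hl0
      unfold cyc at hl
      have h3 : l < k := by omega
      have h4 := hmax l ⟨h3, by omega⟩
      omega
    · push Not at hlt
      obtain ⟨j0, hj0⟩ := h1
      obtain ⟨j, hj, hmax⟩ := Finset.exists_max_image
        (Finset.univ.filter fun j => j ≠ k ∧ 1 ≤ cnt γ j) id
        ⟨j0, by simpa using hj0⟩
      simp only [Finset.mem_filter, Finset.mem_univ, true_and, id] at hj hmax
      refine ⟨j, hj.1, hj.2, ?_⟩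
      have hkj : ¬ j < k := fun h' => by
        have := hlt j h'
        omega
      have hkj' : k < j := by
        rcases lt_trichotomy j k with h' | h' | h'
        · exact absurd h' hkj
        · exact absurd h' hj.1
        · exact h'
      intro l hl
      by_contra hl0
      unfold cyc at hl
      by_cases hlk : l < k
      · have := hlt l hlk
        omega
      · have h4 := hmax l ⟨by rintro rfl; omega, by omega⟩
        omega
  obtain ⟨j, hjk, hj, hc⟩ := h2
  have hcase : 1 ≤ cnt (mv γ k j) k := by rw [cnt_mv_tgt hj hjk.symm]; omega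
  refine ⟨mv γ k j, ?_, Or.inr ⟨j, hjk, hcase, (mv_mv hj hjk.symm).symm, ?_⟩⟩
  · intro he
    have : cnt (mv γ k j) k = cnt γ k := by rw [he]
    rw [cnt_mv_tgt hj hjk.symm] at this
    omega
  · intro l hl
    have hne := cyc_ne hl
    rw [cnt_mv_other hj hjk.symm hne.2 hne.1]
    exact hc l hl

/-- optimal permutations -/
def Opt (k : Fin (n + 1)) (α : Sym (Fin (n + 1)) r) (σ : Equiv.Perm (Sym (Fin (n + 1)) r)) :
    Prop :=
  σ α = rep r k ∧ ∀ β, β ≠ α → Tight k β (σ β)

theorem opt_fix {k : Fin (n + 1)} {α : Sym (Fin (n + 1)) r}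
    {σ : Equiv.Perm (Sym (Fin (n + 1)) r)} (h : Opt k α σ) :
    ∀ m : ℕ, ∀ β, cnt β k = m → m ≤ cnt α k → β ≠ α → σ β = β := by
  intro m
  induction m using Nat.strong_induction_on with
  | _ m ih =>
    intro β hβ hm hne
    by_contra hcon
    have ht := h.2 β hne
    have hc := ht.cnt_eq (fun h' => hcon h'.symm)
    have h1 : σ (σ β) = σ β := by
      apply ih (cnt (σ β) k) (by omega) _ rfl (by omega)
      intro he
      rw [he] at hc
      omega
    exact hcon (σ.injective h1)

theorem opt_step {k : Fin (n + 1)} {α π : Sym (Fin (n + 1)) r}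
    {σ : Equiv.Perm (Sym (Fin (n + 1)) r)} (hπ : Tight k π α) (hne : π ≠ α) (h : Opt k π σ) :
    Opt k α (σ * Equiv.swap π α) := by
  have hc := hπ.cnt_eq hne
  have hfix : σ α = α := opt_fix h (cnt α k) α rfl (by omega) hne.symm
  refine ⟨?_, ?_⟩
  · rw [Equiv.Perm.mul_apply, Equiv.swap_apply_right]
    exact h.1
  · intro β hβ
    rw [Equiv.Perm.mul_apply]
    by_cases hβπ : β = π
    · subst hβπ
      rw [Equiv.swap_apply_left, hfix]
      exact hπ
    · rw [Equiv.swap_apply_of_ne_of_ne hβπ hβ]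
      exact h.2 β hβπ

theorem opt_unstep {k : Fin (n + 1)} {α π : Sym (Fin (n + 1)) r}
    {σ : Equiv.Perm (Sym (Fin (n + 1)) r)} (hπ : Tight k π α) (hne : π ≠ α) (h : Opt k α σ) :
    Opt k π (σ * Equiv.swap π α) := by
  have hα : α ≠ rep r k := by
    rintro rfl
    exact hne (tight_rep hπ)
  have h1 : σ.symm α ≠ α := by
    intro he
    have : σ α = α := by
      conv_lhs => rw [← he]
      simp
    rw [h.1] at this
    exact hα this.symm
  have h2 : Tight k (σ.symm α) α := by
    have := h.2 (σ.symm α) h1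
    rwa [Equiv.apply_symm_apply] at this
  have h3 : σ.symm α = π := tight_unique h2 hπ h1 hne
  have h4 : σ π = α := by rw [← h3]; simp
  refine ⟨?_, ?_⟩
  · rw [Equiv.Perm.mul_apply, Equiv.swap_apply_left]
    exact h.1
  · intro β hβ
    rw [Equiv.Perm.mul_apply]
    by_cases hβα : β = α
    · subst hβα
      rw [Equiv.swap_apply_right, h4]
      exact Or.inl rfl
    · rw [Equiv.swap_apply_of_ne_of_ne hβ hβα]
      exact h.2 β hβα

theorem opt_one (k : Fin (n + 1)) : Opt (r := r) k (rep r k) 1 :=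
  ⟨rfl, fun _ _ => Or.inl rfl⟩

theorem opt_rep {k : Fin (n + 1)} {σ : Equiv.Perm (Sym (Fin (n + 1)) r)}
    (h : Opt k (rep r k) σ) : σ = 1 := by
  have key : ∀ m : ℕ, ∀ β, r - cnt β k = m → σ β = β := by
    intro m
    induction m using Nat.strong_induction_on with
    | _ m ih =>
      intro β hβ
      by_contra hcon
      have h1 : σ.symm β ≠ β := by
        intro he
        apply hcon
        conv_lhs => rw [← he]
        simp
      have h2 : σ.symm β ≠ rep r k := by
        intro he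
        have h3 : β = σ (rep r k) := by rw [← he]; simp
        rw [h.1] at h3
        rw [← h3] at he
        exact h1 he
      have h3 := h.2 _ h2
      rw [Equiv.apply_symm_apply] at h3
      have h4 := h3.cnt_eq h1
      have h5 := cnt_le (σ.symm β) k
      have h6 := ih (r - cnt (σ.symm β) k) (by omega) _ rfl
      rw [Equiv.apply_symm_apply] at h6
      exact h1 h6.symm
  ext β : 1
  exact key _ β rfl

theorem opt_exists_unique (k : Fin (n + 1)) (α : Sym (Fin (n + 1)) r) :
    ∃ σ, Opt k α σ ∧ ∀ σ', Opt k α σ' → σ' = σ := by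
  have key : ∀ m : ℕ, ∀ α : Sym (Fin (n + 1)) r, r - cnt α k = m →
      ∃ σ, Opt k α σ ∧ ∀ σ', Opt k α σ' → σ' = σ := by
    intro m
    induction m with
    | zero =>
      intro α hα
      have h1 := cnt_le α k
      have h2 : α = rep r k := eq_rep_of_cnt_self (by omega)
      subst h2
      exact ⟨1, opt_one k, fun σ' h' => opt_rep h'⟩
    | succ m ih =>
      intro α hα
      have h2 : α ≠ rep r k := by
        rintro rfl
        rw [cnt_rep_self] at hα
        omega
      obtain ⟨π, hne, hπ⟩ := tight_exists h2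
      have hc := hπ.cnt_eq hne
      obtain ⟨σ, hσ, hu⟩ := ih π (by omega)
      refine ⟨σ * Equiv.swap π α, opt_step hπ hne hσ, ?_⟩
      intro σ' h'
      have h3 := hu _ (opt_unstep hπ hne h')
      rw [← h3, mul_assoc, Equiv.swap_mul_self, mul_one]
  exact key _ α rfl

/-- the optimal permutation -/
noncomputable def opt (k : Fin (n + 1)) (α : Sym (Fin (n + 1)) r) :
    Equiv.Perm (Sym (Fin (n + 1)) r) := (opt_exists_unique k α).choose

theorem opt_spec (k : Fin (n + 1)) (α : Sym (Fin (n + 1)) r) : Opt k α (opt k α) :=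
  (opt_exists_unique k α).choose_spec.1

theorem opt_unique {k : Fin (n + 1)} {α : Sym (Fin (n + 1)) r}
    {σ : Equiv.Perm (Sym (Fin (n + 1)) r)} (h : Opt k α σ) : σ = opt k α :=
  (opt_exists_unique k α).choose_spec.2 σ h

end Pool.Agent.LibVeronese
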