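import Mathlib

set_option autoImplicit false

namespace Pool.Agent.LibVeronese

open MvPolynomial

/-- Lying over for an extension which becomes integral after inverting `p`. -/
theorem exists_maximal_over {R A : Type*} [CommRing R] [CommRing A] [Algebra R A]
    (hinj : Function.Injective (algebraMap R A)) (m : Ideal R) (hm : m.IsMaximal)
    (p : R) (hpm : p ∉ m) (hclear : ∀ a : A, ∃ N : ℕ, IsIntegral R ((p ^ N) • a)) :
    ∃ M : Ideal A, M.IsMaximal ∧ M.comap (algebraMap R A) = m := by
  classical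
  let B := integralClosure R A
  have hinjB : Function.Injective (algebraMap R B) := by
    intro a c hac
    have h := congrArg (algebraMap B A) hac
    rw [← IsScalarTower.algebraMap_apply, ← IsScalarTower.algebraMap_apply] at h
    exact hinj h
  obtain ⟨Q, hQmax, hQ⟩ := Ideal.exists_ideal_over_maximal_of_isIntegral (S := B) m (by
    rw [(RingHom.injective_iff_ker_eq_bot _).mp hinjB]
    exact bot_le)
  have hne : Ideal.map (algebraMap B A) Q ≠ ⊤ := by
    intro htop
    have h1mem : (1 : A) ∈ Ideal.map (algebraMap B A) Q := by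
      rw [htop]; trivial
    have key : ∀ a ∈ Ideal.map (algebraMap B A) Q,
        ∃ N : ℕ, ∃ q ∈ Q, algebraMap B A q = (p ^ N) • a := by
      intro a ha
      refine Submodule.span_induction (p := fun a _ => ∃ N : ℕ, ∃ q ∈ Q,
        algebraMap B A q = (p ^ N) • a) ?_ ?_ ?_ ?_ ha
      · rintro _ ⟨q, hq, rfl⟩
        exact ⟨0, q, hq, by simp⟩
      · exact ⟨0, 0, Q.zero_mem, by simp⟩
      · rintro a c _ _ ⟨N1, q1, hq1, h1⟩ ⟨N2, q2, hq2, h2⟩
        refine ⟨N1 + N2, (p ^ N2) • q1 + (p ^ N1) • q2, ?_, ?_⟩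
        · apply Q.add_mem
          · rw [Algebra.smul_def]; exact Q.mul_mem_left _ hq1
          · rw [Algebra.smul_def]; exact Q.mul_mem_left _ hq2
        · show (((p ^ N2) • q1 + (p ^ N1) • q2 : B) : A) = _
          have h1' : (q1 : A) = p ^ N1 • a := h1
          have h2' : (q2 : A) = p ^ N2 • c := h2
          rw [Subalgebra.coe_add, Subalgebra.coe_smul, Subalgebra.coe_smul, h1', h2', smul_smul,
            smul_smul, smul_add, ← pow_add, ← pow_add, add_comm N2 N1]
      · rintro c a _ ⟨N1, q1, hq1, h1⟩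
        obtain ⟨N2, hN2⟩ := hclear c
        refine ⟨N1 + N2, ⟨(p ^ N2) • c, hN2⟩ * q1, Q.mul_mem_left _ hq1, ?_⟩
        rw [map_mul, h1]
        show ((p ^ N2) • c) * (p ^ N1 • a) = p ^ (N1 + N2) • (c * a)
        rw [smul_mul_smul_comm, ← pow_add, add_comm N2 N1]
    obtain ⟨N, q, hq, hqe⟩ := key 1 h1mem
    have hqp : q = algebraMap R B (p ^ N) := by
      apply Subtype.ext
      have h : algebraMap B A q = algebraMap B A (algebraMap R B (p ^ N)) := by
        rw [hqe, ← IsScalarTower.algebraMap_apply, Algebra.algebraMap_eq_smul_one]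
      exact h
    rw [hqp] at hq
    have h : p ^ N ∈ Ideal.comap (algebraMap R B) Q := hq
    rw [hQ] at h
    exact hpm (hm.isPrime.mem_of_pow_mem N h)
  obtain ⟨M, hMmax, hM⟩ := Ideal.exists_le_maximal _ hne
  refine ⟨M, hMmax, ?_⟩
  symm
  apply hm.eq_of_le
  · intro h
    apply hMmax.ne_top
    rw [Ideal.eq_top_iff_one]
    have h1 : (1 : R) ∈ Ideal.comap (algebraMap R A) M := by
      rw [h]; trivial
    simpa using h1
  · intro s hs
    apply hM
    have h : s ∈ Ideal.comap (algebraMap R B) Q := by rw [hQ]; exact hs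
    have h2 : algebraMap B A (algebraMap R B s) ∈ Ideal.map (algebraMap B A) Q :=
      Ideal.mem_map_of_mem _ h
    rw [← IsScalarTower.algebraMap_apply] at h2
    exact h2

/-- A family of algebraically independent polynomials, as many as there are variables, defines a
map whose image of a nonempty principal subset contains a nonempty principal subset. -/
theorem generic_surj {σ : Type*} [Finite σ] (F : σ → MvPolynomial σ ℂ)
    (hF : AlgebraicIndependent ℂ F) (D : MvPolynomial σ ℂ) (hD : D ≠ 0) :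
    ∃ P : MvPolynomial σ ℂ, P ≠ 0 ∧ ∀ b : σ → ℂ, eval b P ≠ 0 →
      ∃ x : σ → ℂ, (∀ i, eval x (F i) = b i) ∧ eval x D ≠ 0 := by
  classical
  cases nonempty_fintype σ
  have htb : IsTranscendenceBasis ℂ F := by
    apply hF.isTranscendenceBasis_of_trdeg_le_of_finite
    rw [MvPolynomial.trdeg_of_isDomain]
    simp
  have halg : Algebra.IsAlgebraic (Algebra.adjoin ℂ (Set.range F)) (MvPolynomial σ ℂ) :=
    htb.isAlgebraic
  set S := Algebra.adjoin ℂ (Set.range F) with hS
  -- denominators of the variables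
  have h1 : ∀ i : σ, ∃ y : S, y ≠ 0 ∧ IsIntegral S (y • (X i : MvPolynomial σ ℂ)) := fun i =>
    (halg.isAlgebraic (X i)).exists_integral_multiple
  choose y hy0 hyint using h1
  obtain ⟨rD, hrD0, hrD⟩ := (halg.isAlgebraic D).exists_nonzero_dvd
    (mem_nonZeroDivisors_of_ne_zero hD)
  set p : S := (∏ i, y i) * rD with hp
  have hp0 : p ≠ 0 := mul_ne_zero (Finset.prod_ne_zero_iff.mpr fun i _ => hy0 i) hrD0
  refine ⟨hF.aevalEquiv.symm p, ?_, ?_⟩
  · intro h
    apply hp0
    have := congrArg hF.aevalEquiv h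
    simpa using this
  intro b hb
  -- the point of the spectrum of S given by b
  let e : S →ₐ[ℂ] ℂ := (aeval b).comp hF.aevalEquiv.symm.toAlgHom
  have heF : ∀ i, e ⟨F i, Algebra.subset_adjoin ⟨i, rfl⟩⟩ = b i := by
    intro i
    have : hF.aevalEquiv.symm ⟨F i, Algebra.subset_adjoin ⟨i, rfl⟩⟩ = X i := by
      rw [AlgEquiv.symm_apply_eq]
      ext1
      simp
    show aeval b (hF.aevalEquiv.symm ⟨F i, Algebra.subset_adjoin ⟨i, rfl⟩⟩) = b i
    rw [this]
    simp
  have hep : e p ≠ 0 := by
    show aeval b (hF.aevalEquiv.symm p) ≠ 0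
    rw [MvPolynomial.aeval_eq_eval]
    exact hb
  have hesurj : Function.Surjective e := fun c => ⟨algebraMap ℂ S c, by simp⟩
  have hm : (RingHom.ker e.toRingHom).IsMaximal :=
    RingHom.ker_isMaximal_of_surjective e.toRingHom hesurj
  have hpm : p ∉ RingHom.ker e.toRingHom := fun h => hep h
  have hclear : ∀ a : MvPolynomial σ ℂ, ∃ N : ℕ, IsIntegral S ((p ^ N) • a) := by
    intro a
    induction a using MvPolynomial.induction_on with
    | C c =>
      refine ⟨0, ?_⟩
      rw [pow_zero, one_smul]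
      have : (C c : MvPolynomial σ ℂ) = algebraMap S (MvPolynomial σ ℂ) (algebraMap ℂ S c) := rfl
      rw [this]
      exact isIntegral_algebraMap
    | add f g hf hg =>
      obtain ⟨N1, h1⟩ := hf
      obtain ⟨N2, h2⟩ := hg
      refine ⟨N1 + N2, ?_⟩
      rw [smul_add]
      apply IsIntegral.add
      · rw [pow_add, mul_comm, mul_smul]
        exact h1.smul _
      · rw [pow_add, mul_smul]
        exact h2.smul _
    | mul_X f i hf =>
      obtain ⟨N1, h1⟩ := hf
      refine ⟨N1 + 1, ?_⟩
      have hpi : IsIntegral S (p • (X i : MvPolynomial σ ℂ)) := by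
        have : p = ((∏ j ∈ Finset.univ.erase i, y j) * rD) * y i := by
          rw [hp, ← Finset.mul_prod_erase Finset.univ y (Finset.mem_univ i)]
          ring
        rw [this, mul_smul]
        exact (hyint i).smul _
      have : p ^ (N1 + 1) • (f * X i) = (p ^ N1 • f) * (p • X i) := by
        rw [pow_succ, smul_mul_smul_comm]
      rw [this]
      exact h1.mul hpi
  obtain ⟨M, hMmax, hcontr⟩ := exists_maximal_over (A := MvPolynomial σ ℂ)
    (Subtype.val_injective) _ hm p hpm hclear
  obtain ⟨x, hx⟩ := MvPolynomial.isMaximal_iff_eq_vanishingIdeal_singleton.mp hMmax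
  have hmem : ∀ f : MvPolynomial σ ℂ, f ∈ M ↔ eval x f = 0 := by
    intro f
    rw [hx]
    simp
  have hmM : ∀ s : S, e s = 0 ↔ eval x (s : MvPolynomial σ ℂ) = 0 := by
    intro s
    rw [← hmem]
    have : s ∈ Ideal.comap (algebraMap S (MvPolynomial σ ℂ)) M ↔ s ∈ RingHom.ker e.toRingHom := by
      rw [hcontr]
    exact this.symm
  refine ⟨x, ?_, ?_⟩
  · intro i
    have h3 := (hmM (⟨F i, Algebra.subset_adjoin ⟨i, rfl⟩⟩ - algebraMap ℂ S (b i))).mp (by
      rw [map_sub, heF i]
      simp)
    have h4 : eval x (F i - C (b i)) = 0 := h3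
    rw [map_sub, eval_C, sub_eq_zero] at h4
    exact h4
  · intro h0
    obtain ⟨c, hc⟩ := hrD
    have h2 : eval x (rD : MvPolynomial σ ℂ) = 0 := by
      have : (rD : MvPolynomial σ ℂ) = D * c := hc
      rw [this, map_mul, h0, zero_mul]
    have h5 : e rD = 0 := (hmM rD).mpr h2
    apply hep
    rw [hp, map_mul, h5, mul_zero]

end Pool.Agent.LibVeronese
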