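import Mathlib

set_option autoImplicit false

namespace Pool.Agent.LibVeronese

open MvPolynomial

variable {σ : Type*} {K : Type*} [Field K] {G : Type*} [AddCommGroup G] [LinearOrder G]
  [IsOrderedAddMonoid G]

/-- Weight of an exponent vector. -/
noncomputable def wt (w : σ → G) : (σ →₀ ℕ) →+ G :=
  (Finsupp.linearCombination ℕ w).toAddMonoidHom

/-- `E` is the unique exponent of minimal weight in `f`. -/
def IsInit (w : σ → G) (f : MvPolynomial σ K) (E : σ →₀ ℕ) : Prop :=
  coeff E f ≠ 0 ∧ ∀ F, coeff F f ≠ 0 → F ≠ E → wt w E < wt w F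

omit [IsOrderedAddMonoid G] in
theorem IsInit.le {w : σ → G} {f : MvPolynomial σ K} {E F : σ →₀ ℕ} (h : IsInit w f E)
    (hF : coeff F f ≠ 0) : wt w E ≤ wt w F := by
  by_cases hne : F = E
  · rw [hne]
  · exact (h.2 F hF hne).le

omit [IsOrderedAddMonoid G] in
theorem IsInit.one (w : σ → G) : IsInit w (1 : MvPolynomial σ K) 0 := by
  classical
  refine ⟨by simp, fun F hF hne => ?_⟩
  exfalso
  apply hF
  rw [coeff_one, if_neg (fun h => hne h.symm)]

theorem IsInit.mul {w : σ → G} {f g : MvPolynomial σ K} {E E' : σ →₀ ℕ} (hf : IsInit w f E)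
    (hg : IsInit w g E') : IsInit w (f * g) (E + E') := by
  classical
  constructor
  · rw [coeff_mul]
    rw [Finset.sum_eq_single (E, E')]
    · exact mul_ne_zero hf.1 hg.1
    · rintro ⟨a, b⟩ hab hne
      rw [Finset.HasAntidiagonal.mem_antidiagonal] at hab
      simp only at hab ⊢
      by_contra hcon
      have ha : coeff a f ≠ 0 := left_ne_zero_of_mul hcon
      have hb : coeff b g ≠ 0 := right_ne_zero_of_mul hcon
      have hsum : wt w a + wt w b = wt w E + wt w E' := by
        rw [← map_add, ← map_add, hab]
      have h1 := hf.le ha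
      have h2 := hg.le hb
      by_cases hae : a = E
      · have hbe : b ≠ E' := by
          intro hbe
          exact hne (by rw [hae, hbe])
        have h3 := hg.2 b hb hbe
        have := add_lt_add_of_le_of_lt h1 h3
        rw [hsum] at this
        exact lt_irrefl _ this
      · have h3 := hf.2 a ha hae
        have := add_lt_add_of_lt_of_le h3 h2
        rw [hsum] at this
        exact lt_irrefl _ this
    · intro h
      exfalso
      apply h
      rw [Finset.HasAntidiagonal.mem_antidiagonal]
  · intro F hF hne
    rw [coeff_mul] at hF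
    obtain ⟨⟨a, b⟩, hab, hcon⟩ := Finset.exists_ne_zero_of_sum_ne_zero hF
    rw [Finset.HasAntidiagonal.mem_antidiagonal] at hab
    simp only at hab hcon
    have ha : coeff a f ≠ 0 := left_ne_zero_of_mul hcon
    have hb : coeff b g ≠ 0 := right_ne_zero_of_mul hcon
    rw [← hab, map_add, map_add]
    by_cases hae : a = E
    · have hbe : b ≠ E' := by
        intro hbe
        apply hne
        rw [← hab, hae, hbe]
      exact add_lt_add_of_le_of_lt (hf.le ha) (hg.2 b hb hbe)
    · exact add_lt_add_of_lt_of_le (hf.2 a ha hae) (hg.le hb)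

theorem IsInit.pow {w : σ → G} {f : MvPolynomial σ K} {E : σ →₀ ℕ} (hf : IsInit w f E) (n : ℕ) :
    IsInit w (f ^ n) (n • E) := by
  induction n with
  | zero => simpa using IsInit.one w
  | succ n ih =>
    rw [pow_succ, succ_nsmul]
    exact ih.mul hf

theorem IsInit.prod {ι : Type*} {w : σ → G} (s : Finset ι) (f : ι → MvPolynomial σ K)
    (E : ι → σ →₀ ℕ) (hf : ∀ i ∈ s, IsInit w (f i) (E i)) :
    IsInit w (∏ i ∈ s, f i) (∑ i ∈ s, E i) := by
  classical
  induction s using Finset.induction_on with
  | empty => simpa using IsInit.one w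
  | insert a s has ih =>
    rw [Finset.prod_insert has, Finset.sum_insert has]
    exact (hf a (Finset.mem_insert_self a s)).mul
      (ih fun i hi => hf i (Finset.mem_insert_of_mem hi))

/-- Polynomials with multiplicatively independent initial monomials are algebraically
independent. -/
theorem algebraicIndependent_of_init {ι : Type*} (w : σ → G) (f : ι → MvPolynomial σ K)
    (E : ι → σ →₀ ℕ) (hf : ∀ i, IsInit w (f i) (E i))
    (hE : ∀ u v : ι →₀ ℕ, (u.sum fun i a => a • E i) = (v.sum fun i a => a • E i) → u = v) :
    AlgebraicIndependent K f := by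
  classical
  rw [algebraicIndependent_iff]
  intro p hp
  by_contra hne
  have hsupp : p.support.Nonempty := by
    rw [Finset.nonempty_iff_ne_empty]
    intro h
    exact hne (MvPolynomial.support_eq_empty.mp h)
  obtain ⟨u0, hu0, hmin⟩ := Finset.exists_min_image p.support
    (fun u => wt w (u.sum fun i a => a • E i)) hsupp
  have hinit : ∀ u : ι →₀ ℕ, IsInit w (u.prod fun i a => f i ^ a) (u.sum fun i a => a • E i) := by
    intro u
    exact IsInit.prod _ _ _ fun i _ => (hf i).pow _
  have hcoeff : coeff (u0.sum fun i a => a • E i) (aeval f p) =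
      coeff u0 p * coeff (u0.sum fun i a => a • E i) (u0.prod fun i a => f i ^ a) := by
    rw [aeval_def, eval₂_eq, MvPolynomial.coeff_sum]
    rw [Finset.sum_eq_single u0]
    · rw [MvPolynomial.algebraMap_eq, coeff_C_mul]
      rfl
    · intro u hu hne'
      rw [MvPolynomial.algebraMap_eq, coeff_C_mul]
      by_contra hcon
      have h1 : coeff (u0.sum fun i a => a • E i) (u.prod fun i a => f i ^ a) ≠ 0 :=
        right_ne_zero_of_mul hcon
      have h2 := (hinit u).2 _ h1 (fun h => hne' (hE _ _ h).symm)
      exact absurd h2 (not_lt.mpr (hmin u hu))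
    · intro h
      exact absurd hu0 h
  rw [hp, coeff_zero] at hcoeff
  have h1 : coeff u0 p ≠ 0 := MvPolynomial.mem_support_iff.mp hu0
  exact mul_ne_zero h1 (hinit u0).1 hcoeff.symm

end Pool.Agent.LibVeronese
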