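import Mathlib
import Pool.Agent.LibVeronese.Comb

set_option autoImplicit false

namespace Pool.Agent.LibVeronese

variable {n r : ℕ}

/-- pairing of the exponent `γ` with the covector at `β` -/
def pr (η : Sym (Fin (n + 1)) r → Fin (n + 1) → ℚ) (γ β : Sym (Fin (n + 1)) r) : ℚ :=
  ∑ j, (cnt γ j : ℚ) * η β j

/-- pairing with the exponent attached to a permutation -/
def TT (η : Sym (Fin (n + 1)) r → Fin (n + 1) → ℚ) (α : Sym (Fin (n + 1)) r)
    (σ : Equiv.Perm (Sym (Fin (n + 1)) r)) : ℚ :=
  ∑ β, if β = α then 0 else pr η (σ β) β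

theorem TT_step (η : Sym (Fin (n + 1)) r → Fin (n + 1) → ℚ) {α π : Sym (Fin (n + 1)) r}
    {σ : Equiv.Perm (Sym (Fin (n + 1)) r)} (hne : π ≠ α) (hσ : σ α = α) :
    TT η α (σ * Equiv.swap π α) - TT η π σ = pr η α π - pr η α α := by
  unfold TT
  rw [← Finset.sum_sub_distrib]
  have h : ∀ β, ((if β = α then 0 else pr η ((σ * Equiv.swap π α) β) β) -
      (if β = π then 0 else pr η (σ β) β)) =
      (if β = π then pr η α π else 0) - (if β = α then pr η α α else 0) := by
    intro β
    by_cases h1 : β = α
    · subst h1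
      rw [if_pos rfl, if_neg (fun h => hne h.symm), if_neg (fun h => hne h.symm), if_pos rfl, hσ]
    · by_cases h2 : β = π
      · subst h2
        rw [if_neg h1, if_pos rfl, if_pos rfl, if_neg h1, Equiv.Perm.mul_apply,
          Equiv.swap_apply_left, hσ]
      · rw [if_neg h1, if_neg h2, if_neg h2, if_neg h1, Equiv.Perm.mul_apply,
          Equiv.swap_apply_of_ne_of_ne h2 h1]
        ring
  rw [Finset.sum_congr rfl fun β _ => h β, Finset.sum_sub_distrib]
  simp

theorem pr_mv (η : Sym (Fin (n + 1)) r → Fin (n + 1) → ℚ) {β β' : Sym (Fin (n + 1)) r}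
    {j k : Fin (n + 1)} (hjk : j ≠ k) (hk : 1 ≤ cnt β k) :
    pr η (mv β j k) β' = pr η β β' + (η β' j - η β' k) := by
  unfold pr
  have h : ∀ i, (cnt (mv β j k) i : ℚ) * η β' i = (cnt β i : ℚ) * η β' i +
      ((if i = j then η β' i else 0) - (if i = k then η β' i else 0)) := by
    intro i
    rw [cnt_mv hk hjk]
    by_cases hij : i = j
    · subst hij
      rw [if_pos rfl, if_pos rfl, if_neg hjk]
      push_cast
      ring
    · by_cases hik : i = k
      · subst hik
        rw [if_neg hij, if_pos rfl, if_neg hij, if_pos rfl]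
        rw [Nat.cast_sub hk]
        push_cast
        ring
      · rw [if_neg hij, if_neg hik, if_neg hij, if_neg hik]
        ring
  rw [Finset.sum_congr rfl fun i _ => h i, Finset.sum_add_distrib, Finset.sum_sub_distrib]
  simp

/-- A function which weakly decreases along all admissible steps is constant on the support and
maximal there. -/
theorem chain (β : Sym (Fin (n + 1)) r) (f : Fin (n + 1) → ℚ)
    (hf : ∀ k j, j ≠ k → 1 ≤ cnt β k → (∀ l, cyc j l k → cnt β l = 0) → f j ≤ f k) :
    ∀ a x : Fin (n + 1), 1 ≤ cnt β x → f a ≤ f x := by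
  classical
  -- linear chains
  have h1 : ∀ m : ℕ, ∀ a b : Fin (n + 1), b.val - a.val = m → a < b → 1 ≤ cnt β b → f a ≤ f b := by
    intro m
    induction m using Nat.strong_induction_on with
    | _ m ih =>
      intro a b hm hab hb
      by_cases hex : ∃ l, a < l ∧ l < b ∧ 1 ≤ cnt β l
      · obtain ⟨l0, hl0⟩ := hex
        obtain ⟨l, hl, hmin⟩ := Finset.exists_min_image
          (Finset.univ.filter fun l => a < l ∧ l < b ∧ 1 ≤ cnt β l) id
          ⟨l0, by simpa using hl0⟩
        simp only [Finset.mem_filter, Finset.mem_univ, true_and, id] at hl hmin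
        have h2 : f a ≤ f l := by
          apply hf l a (ne_of_lt hl.1) hl.2.2
          intro x hx
          by_contra hx0
          unfold cyc at hx
          have h3 : a < x ∧ x < l := by omega
          have h4 := hmin x ⟨h3.1, by omega, by omega⟩
          omega
        have h3 : f l ≤ f b := ih (b.val - l.val) (by omega) l b rfl hl.2.1 hb
        exact h2.trans h3
      · push Not at hex
        apply hf b a (ne_of_lt hab) hb
        intro x hx
        unfold cyc at hx
        have h3 : a < x ∧ x < b := by omega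
        have h4 := hex x h3.1 h3.2
        omega
  intro a x hx
  -- minimal and maximal elements of the support
  obtain ⟨lo, hlo, hmin⟩ := Finset.exists_min_image
    (Finset.univ.filter fun l => 1 ≤ cnt β l) id ⟨x, by simpa using hx⟩
  obtain ⟨hi, hhi, hmax⟩ := Finset.exists_max_image
    (Finset.univ.filter fun l => 1 ≤ cnt β l) id ⟨x, by simpa using hx⟩
  simp only [Finset.mem_filter, Finset.mem_univ, true_and, id] at hlo hmin hhi hmax
  have hlox : f lo ≤ f x := by
    have h2 := hmin x hx
    rcases eq_or_lt_of_le h2 with h3 | h3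
    · rw [h3]
    · exact h1 _ lo x rfl h3 hx
  have hwrap : ∀ c, hi ≤ c → f c ≤ f lo := by
    intro c hc
    by_cases hcl : c = lo
    · rw [hcl]
    · apply hf lo c hcl hlo
      intro y hy
      by_contra hy0
      have h3 := hmin y (by omega)
      have h4 := hmax y (by omega)
      unfold cyc at hy
      have h5 := hmax lo hlo
      omega
  rcases lt_or_ge a hi with h2 | h2
  · exact (h1 _ a hi rfl h2 hhi).trans ((hwrap hi le_rfl).trans hlox)
  · exact (hwrap a h2).trans hlox

/-- The index sum. -/
def idx (β : Sym (Fin (n + 1)) r) : ℕ := ∑ j, j.val * cnt β j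

theorem idx_mv {β : Sym (Fin (n + 1)) r} {j k : Fin (n + 1)} (hjk : j < k) (hk : 1 ≤ cnt β k) :
    idx (mv β j k) < idx β := by
  have h : ∀ i : Fin (n + 1), (i.val * cnt (mv β j k) i : ℤ) = i.val * cnt β i +
      ((if i = j then (i.val : ℤ) else 0) - (if i = k then (i.val : ℤ) else 0)) := by
    intro i
    rw [cnt_mv hk (ne_of_lt hjk)]
    by_cases hij : i = j
    · subst hij
      rw [if_pos rfl, if_pos rfl, if_neg (ne_of_lt hjk)]
      push_cast
      ring
    · by_cases hik : i = k
      · subst hik
        rw [if_neg hij, if_pos rfl, if_neg hij, if_pos rfl]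
        rw [Nat.cast_sub hk]
        push_cast
        ring
      · rw [if_neg hij, if_neg hik, if_neg hij, if_neg hik]
        ring
  have h2 : (idx (mv β j k) : ℤ) = idx β + (j.val - k.val) := by
    unfold idx
    push_cast
    rw [Finset.sum_congr rfl fun i _ => h i, Finset.sum_add_distrib, Finset.sum_sub_distrib]
    simp
  have h3 : j.val < k.val := hjk
  omega

variable (η : Sym (Fin (n + 1)) r → Fin (n + 1) → ℚ)

/-- maximum principle: the maximum of `φ` is attained at a pure power -/
theorem max_at_corner (hr : 1 ≤ r)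
    (hedge : ∀ (β : Sym (Fin (n + 1)) r) (k j : Fin (n + 1)), j ≠ k → 1 ≤ cnt β k →
      (∀ l, cyc j l k → cnt β l = 0) →
      η β j - η β k = pr η (mv β j k) (mv β j k) - pr η β β)
    (M : ℚ) (hM : ∀ β, pr η β β ≤ M) :
    ∀ m : ℕ, ∀ β, idx β = m → pr η β β = M →
      ∃ k : Fin (n + 1), pr η (rep r k) (rep r k) = M := by
  classical
  intro m
  induction m using Nat.strong_induction_on with
  | _ m ih =>
    intro β hm hβ
    by_cases hrep : ∃ k, β = rep r k
    · obtain ⟨k, rfl⟩ := hrep
      exact ⟨k, hβ⟩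
    push Not at hrep
    have hsupp : ∃ x, 1 ≤ cnt β x := by
      by_contra hcon
      push Not at hcon
      have : ∑ j, cnt β j = 0 := Finset.sum_eq_zero fun j _ => by
        have := hcon j
        omega
      rw [sum_cnt] at this
      omega
    have hle : ∀ a x : Fin (n + 1), 1 ≤ cnt β x → η β a ≤ η β x := by
      apply chain β (η β)
      intro k j hjk hk hc
      have h1 := hedge β k j hjk hk hc
      have h2 := hM (mv β j k)
      linarith
    obtain ⟨x, hx⟩ := hsupp
    obtain ⟨hi, hhi, hmax⟩ := Finset.exists_max_image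
      (Finset.univ.filter fun l => 1 ≤ cnt β l) id ⟨x, by simpa using hx⟩
    simp only [Finset.mem_filter, Finset.mem_univ, true_and, id] at hhi hmax
    have h2 : ∃ y, y ≠ hi ∧ 1 ≤ cnt β y := by
      by_contra hcon
      push Not at hcon
      apply hrep hi
      apply eq_rep_of_cnt
      intro j hj
      have := hcon j hj
      omega
    obtain ⟨y, hy⟩ := h2
    obtain ⟨j, hj, hjmax⟩ := Finset.exists_max_image
      (Finset.univ.filter fun l => l ≠ hi ∧ 1 ≤ cnt β l) id ⟨y, by simpa using hy⟩
    simp only [Finset.mem_filter, Finset.mem_univ, true_and, id] at hj hjmax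
    have hjhi : j < hi := lt_of_le_of_ne (hmax j hj.2) hj.1
    have hc : ∀ l, cyc j l hi → cnt β l = 0 := by
      intro l hl
      by_contra hl0
      have h3 := cyc_ne hl
      have h4 := hjmax l ⟨h3.2, by omega⟩
      unfold cyc at hl
      omega
    have h3 := hedge β hi j hj.1 hhi hc
    have h4 : η β j = η β hi := le_antisymm (hle j hi hhi) (hle hi j hj.2)
    have h5 : pr η (mv β j hi) (mv β j hi) = M := by
      rw [h4, sub_self] at h3
      linarith
    have h6 := idx_mv hjhi hhi
    exact ih (idx (mv β j hi)) (by omega) _ rfl h5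

theorem phi_le (hr : 1 ≤ r)
    (hedge : ∀ (β : Sym (Fin (n + 1)) r) (k j : Fin (n + 1)), j ≠ k → 1 ≤ cnt β k →
      (∀ l, cyc j l k → cnt β l = 0) →
      η β j - η β k = pr η (mv β j k) (mv β j k) - pr η β β)
    (c : ℚ) (hc : ∀ k : Fin (n + 1), pr η (rep r k) (rep r k) = c) :
    ∀ β, pr η β β ≤ c := by
  obtain ⟨β0, -, hβ0⟩ := Finset.exists_max_image
    (Finset.univ : Finset (Sym (Fin (n + 1)) r)) (fun β => pr η β β)
    ⟨rep r 0, Finset.mem_univ _⟩
  obtain ⟨k, hk⟩ := max_at_corner η hr hedge (pr η β0 β0)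
    (fun β => hβ0 β (Finset.mem_univ _)) _ β0 rfl rfl
  rw [hc k] at hk
  intro β
  rw [hk]
  exact hβ0 β (Finset.mem_univ _)

theorem pr_neg (γ β : Sym (Fin (n + 1)) r) : pr (fun β j => - η β j) γ β = - pr η γ β := by
  unfold pr
  rw [← Finset.sum_neg_distrib]
  exact Finset.sum_congr rfl fun _ _ => by ring

/-- the exponent matrix has trivial kernel -/
theorem kernel_zero (hn : 1 ≤ n) (hr : 1 ≤ r)
    (h : ∀ (k : Fin (n + 1)) (α : Sym (Fin (n + 1)) r), TT η α (opt k α) = 0) :
    ∀ β j, η β j = 0 := by
  classical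
  have H1 : ∀ (k : Fin (n + 1)) (α π : Sym (Fin (n + 1)) r), Tight k π α → π ≠ α →
      pr η α π = pr η α α := by
    intro k α π ht hne
    have h1 := opt_spec k π
    have hc := ht.cnt_eq hne
    have h2 : opt k π α = α := opt_fix h1 (cnt α k) α rfl (by omega) hne.symm
    have h3 := opt_unique (opt_step ht hne h1)
    have h4 := TT_step η hne h2
    rw [h3, h k α, h k π] at h4
    linarith
  have hedge : ∀ (β : Sym (Fin (n + 1)) r) (k j : Fin (n + 1)), j ≠ k → 1 ≤ cnt β k →
      (∀ l, cyc j l k → cnt β l = 0) →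
      η β j - η β k = pr η (mv β j k) (mv β j k) - pr η β β := by
    intro β k j hjk hk hc
    have hne : β ≠ mv β j k := by
      intro he
      have h1 := cnt_mv_src hk hjk
      rw [← he] at h1
      omega
    have h1 := H1 k (mv β j k) β (Or.inr ⟨j, hjk, hk, rfl, hc⟩) hne
    rw [← h1, pr_mv η hjk hk]
    ring
  have hone : ∀ k : Fin (n + 1), opt (r := r) k (rep r k) = 1 := fun k =>
    (opt_unique (opt_one k)).symm
  have H2 : ∀ k : Fin (n + 1), pr η (rep r k) (rep r k) =
      ∑ β : Sym (Fin (n + 1)) r, pr η β β := by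
    intro k
    have h1 := h k (rep r k)
    rw [hone] at h1
    unfold TT at h1
    have h2 : ∀ β : Sym (Fin (n + 1)) r, (if β = rep r k then 0 else
        pr η ((1 : Equiv.Perm (Sym (Fin (n + 1)) r)) β) β) =
        pr η β β - (if β = rep r k then pr η β β else 0) := by
      intro β
      by_cases hβ : β = rep r k
      · rw [if_pos hβ, if_pos hβ, sub_self]
      · rw [if_neg hβ, if_neg hβ, sub_zero]
        rfl
    rw [Finset.sum_congr rfl fun β _ => h2 β, Finset.sum_sub_distrib] at h1
    simp at h1
    linarith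
  set c := ∑ β : Sym (Fin (n + 1)) r, pr η β β with hcdef
  have hle := phi_le η hr hedge c H2
  have hge := phi_le (fun β j => - η β j) hr (by
    intro β k j hjk hk hc
    rw [pr_neg, pr_neg]
    have := hedge β k j hjk hk hc
    linarith) (-c) (by
    intro k
    rw [pr_neg, H2 k])
  have hphi : ∀ β : Sym (Fin (n + 1)) r, pr η β β = c := by
    intro β
    have h1 := hle β
    have h2 := hge β
    rw [pr_neg] at h2
    linarith
  -- c = 0
  have hc0 : c = 0 := by
    have h1 : c = (Fintype.card (Sym (Fin (n + 1)) r) : ℚ) * c := by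
      conv_lhs => rw [hcdef, Finset.sum_congr rfl fun β _ => hphi β]
      simp
    have hcard : 2 ≤ Fintype.card (Sym (Fin (n + 1)) r) := by
      have hne : rep r (0 : Fin (n + 1)) ≠ rep r (Fin.last n) := by
        intro he
        have h2 : cnt (rep r (0 : Fin (n + 1))) 0 = cnt (rep r (Fin.last n)) 0 := by rw [he]
        rw [cnt_rep_self, cnt_rep_ne] at h2
        · omega
        · intro h0
          have := congrArg Fin.val h0
          simp at this
          omega
      have : 1 < Fintype.card (Sym (Fin (n + 1)) r) := by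
        rw [Fintype.one_lt_card_iff]
        exact ⟨_, _, hne⟩
      omega
    have hcard' : (2 : ℚ) ≤ (Fintype.card (Sym (Fin (n + 1)) r) : ℚ) := by exact_mod_cast hcard
    have h2 : ((Fintype.card (Sym (Fin (n + 1)) r) : ℚ) - 1) * c = 0 := by linarith
    rcases mul_eq_zero.mp h2 with h3 | h3
    · exfalso; linarith
    · exact h3
  intro β
  have hsupp : ∃ x, 1 ≤ cnt β x := by
    by_contra hcon
    push Not at hcon
    have : ∑ j, cnt β j = 0 := Finset.sum_eq_zero fun j _ => by
      have := hcon j
      omega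
    rw [sum_cnt] at this
    omega
  obtain ⟨x, hx⟩ := hsupp
  have hA : ∀ a x : Fin (n + 1), 1 ≤ cnt β x → η β a ≤ η β x := by
    apply chain β (η β)
    intro k j hjk hk hc
    have h1 := hedge β k j hjk hk hc
    rw [hphi, hphi] at h1
    linarith
  have hB : ∀ a x : Fin (n + 1), 1 ≤ cnt β x → - η β a ≤ - η β x := by
    apply chain β (fun j => - η β j)
    intro k j hjk hk hc
    have h1 := hedge β k j hjk hk hc
    rw [hphi, hphi] at h1
    linarith
  have hconst : ∀ a, η β a = η β x := by
    intro a
    have h1 := hA a x hx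
    have h2 := hB a x hx
    linarith
  have h1 : pr η β β = (r : ℚ) * η β x := by
    unfold pr
    rw [Finset.sum_congr rfl fun j _ => by rw [hconst j], ← Finset.sum_mul, ← Nat.cast_sum,
      sum_cnt]
  rw [hphi, hc0] at h1
  have hr' : (r : ℚ) ≠ 0 := by
    have : r ≠ 0 := by omega
    exact_mod_cast this
  have h2 : η β x = 0 := by
    rcases mul_eq_zero.mp h1.symm with h3 | h3
    · exact absurd h3 hr'
    · exact h3
  intro j
  rw [hconst j, h2]

end Pool.Agent.LibVeronese
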