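import Mathlib
import Pool.Agent.LibVeronese.Comb

set_option autoImplicit false

namespace Pool.Agent.LibVeronese

theorem int_sq_sub_self_nonneg (d : ℤ) : 0 ≤ d ^ 2 - d := by
  rcases le_or_gt d 0 with h | h
  · nlinarith
  · nlinarith

theorem int_sq_sub_self_eq {d : ℤ} (h : d ^ 2 - d = 0) : d = 0 ∨ d = 1 := by
  have h1 : d * (d - 1) = 0 := by linarith [h, sq d, mul_sub d d 1]
  rcases mul_eq_zero.mp h1 with h2 | h2
  · exact Or.inl h2
  · right; omega

theorem disp_identity {ι : Type*} [Fintype ι] [DecidableEq ι] (d : ι → ℤ) (hd : ∑ j, d j = 0)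
    (k : ι) : ∑ j, (d j) ^ 2 + 2 * d k =
      ((d k) ^ 2 + d k) + ∑ j ∈ Finset.univ.erase k, ((d j) ^ 2 - d j) := by
  rw [Finset.sum_sub_distrib]
  have h1 := Finset.add_sum_erase Finset.univ d (Finset.mem_univ k)
  have h2 := Finset.add_sum_erase Finset.univ (fun j => (d j) ^ 2) (Finset.mem_univ k)
  rw [hd] at h1
  linarith

theorem disp_nonneg {ι : Type*} [Fintype ι] [DecidableEq ι] (d : ι → ℤ) (hd : ∑ j, d j = 0)
    (k : ι) : 0 ≤ ∑ j, (d j) ^ 2 + 2 * d k := by
  rw [disp_identity d hd k]
  apply add_nonneg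
  · have := int_sq_sub_self_nonneg (-(d k))
    linarith [neg_sq (d k)]
  · exact Finset.sum_nonneg fun j _ => int_sq_sub_self_nonneg _

theorem disp_eq {ι : Type*} [Fintype ι] [DecidableEq ι] (d : ι → ℤ) (hd : ∑ j, d j = 0)
    (k : ι) (h : ∑ j, (d j) ^ 2 + 2 * d k = 0) :
    (∀ j, d j = 0) ∨ (d k = -1 ∧ ∃ j, j ≠ k ∧ d j = 1 ∧ ∀ i, i ≠ j → i ≠ k → d i = 0) := by
  rw [disp_identity d hd k] at h
  have h1 : 0 ≤ (d k) ^ 2 + d k := by
    have := int_sq_sub_self_nonneg (-(d k))
    linarith [neg_sq (d k)]
  have h2 : 0 ≤ ∑ j ∈ Finset.univ.erase k, ((d j) ^ 2 - d j) :=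
    Finset.sum_nonneg fun j _ => int_sq_sub_self_nonneg _
  have h3 : (d k) ^ 2 + d k = 0 := by linarith
  have h4 : ∑ j ∈ Finset.univ.erase k, ((d j) ^ 2 - d j) = 0 := by linarith
  rw [Finset.sum_eq_zero_iff_of_nonneg (fun j _ => int_sq_sub_self_nonneg _)] at h4
  have h5 : ∀ j, j ≠ k → d j = 0 ∨ d j = 1 := fun j hj =>
    int_sq_sub_self_eq (h4 j (Finset.mem_erase.mpr ⟨hj, Finset.mem_univ _⟩))
  have h6 : d k = 0 ∨ d k = -1 := by
    have h7 : (-(d k)) ^ 2 - (-(d k)) = 0 := by linarith [neg_sq (d k)]
    rcases int_sq_sub_self_eq h7 with h8 | h8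
    · left; omega
    · right; omega
  have h7 : ∑ j ∈ Finset.univ.erase k, d j = - d k := by
    have h1 := Finset.add_sum_erase Finset.univ d (Finset.mem_univ k)
    rw [hd] at h1
    linarith
  have hnn : ∀ j ∈ Finset.univ.erase k, 0 ≤ d j := by
    intro j hj
    rcases h5 j (Finset.mem_erase.mp hj).1 with h8 | h8 <;> omega
  rcases h6 with h6 | h6
  · left
    rw [h6, neg_zero, Finset.sum_eq_zero_iff_of_nonneg hnn] at h7
    intro j
    by_cases hj : j = k
    · rw [hj, h6]
    · exact h7 j (Finset.mem_erase.mpr ⟨hj, Finset.mem_univ _⟩)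
  · right
    refine ⟨h6, ?_⟩
    have h8 : ∃ j, j ≠ k ∧ d j = 1 := by
      by_contra hcon
      push Not at hcon
      have : ∑ j ∈ Finset.univ.erase k, d j = 0 := by
        apply Finset.sum_eq_zero
        intro j hj
        have hjk := (Finset.mem_erase.mp hj).1
        rcases h5 j hjk with h8 | h8
        · exact h8
        · exact absurd h8 (hcon j hjk)
      rw [h7, h6] at this
      omega
    obtain ⟨j, hjk, hj⟩ := h8
    refine ⟨j, hjk, hj, ?_⟩
    intro i hij hik
    have hjm : j ∈ Finset.univ.erase k := Finset.mem_erase.mpr ⟨hjk, Finset.mem_univ _⟩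
    rw [← Finset.add_sum_erase _ _ hjm, hj, h6] at h7
    have h9 : ∑ x ∈ (Finset.univ.erase k).erase j, d x = 0 := by linarith
    rw [Finset.sum_eq_zero_iff_of_nonneg (fun x hx => hnn x (Finset.mem_of_mem_erase hx))] at h9
    exact h9 i (Finset.mem_erase.mpr ⟨hij, Finset.mem_erase.mpr ⟨hik, Finset.mem_univ _⟩⟩)

variable {n r : ℕ}

/-- antisymmetric sign matrix -/
def sg (i j : Fin (n + 1)) : ℤ := if i < j then 1 else if j < i then -1 else 0

theorem sg_antisymm (i j : Fin (n + 1)) : sg i j = - sg j i := by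
  unfold sg
  split_ifs <;> omega

/-- the local cost -/
def cc (j k l : Fin (n + 1)) : ℤ :=
  sg j l - sg k l - sg j k + 1 - (if l = k then 1 else 0) - (if l = j then 1 else 0)

theorem cc_cases (j k l : Fin (n + 1)) (hjk : j ≠ k) :
    (cyc j l k ∧ cc j k l = 2) ∨ (¬ cyc j l k ∧ cc j k l = 0) := by
  unfold cyc cc sg
  rcases lt_trichotomy l k with h1 | h1 | h1 <;> rcases lt_trichotomy l j with h2 | h2 | h2 <;>
    rcases lt_trichotomy j k with h3 | h3 | h3 <;>
    first
    | (exfalso; omega)
    | (split_ifs <;> omega)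

/-- the first weight pairing, as integers -/
def S1 (β γ : Fin (n + 1) → ℤ) : ℤ := ∑ j, β j * γ j

/-- the second weight pairing -/
def S2 (β γ : Fin (n + 1) → ℤ) : ℤ := ∑ i, (∑ j, sg i j * β j) * γ i

theorem S2_self (β : Fin (n + 1) → ℤ) : S2 β β = 0 := by
  have h1 : S2 β β = ∑ i, ∑ j, sg i j * β j * β i := by
    unfold S2
    refine Finset.sum_congr rfl fun i _ => ?_
    rw [Finset.sum_mul]
  have h2 : S2 β β = - S2 β β := by
    conv_rhs => rw [h1]
    rw [Finset.sum_comm, h1, ← Finset.sum_neg_distrib]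
    refine Finset.sum_congr rfl fun i _ => ?_
    rw [← Finset.sum_neg_distrib]
    refine Finset.sum_congr rfl fun j _ => ?_
    rw [sg_antisymm i j]
    ring
  omega

/-- potential -/
def pot (r : ℤ) (k : Fin (n + 1)) (γ : Fin (n + 1) → ℤ) : ℤ :=
  2 * r * (∑ j, sg j k * γ j) - (r - γ k) ^ 2 + (∑ j, (γ j) ^ 2 - (γ k) ^ 2)

/-- displacement vector of a move from `k` to `j` -/
def dsp (j k i : Fin (n + 1)) : ℤ := (if i = j then 1 else 0) - (if i = k then 1 else 0)

theorem sum_mul_dsp (a : Fin (n + 1) → ℤ) (j k : Fin (n + 1)) :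
    ∑ i, a i * dsp j k i = a j - a k := by
  unfold dsp
  simp [mul_sub, Finset.sum_sub_distrib]

theorem second_identity (r : ℤ) (j k : Fin (n + 1)) (hjk : j ≠ k) (β γ : Fin (n + 1) → ℤ)
    (hβ : ∑ i, β i = r) (hγ : ∀ i, γ i = β i + dsp j k i) :
    2 * S2 β γ - pot r k γ + pot r k β = 2 * ∑ l, β l * cc j k l := by
  have h1 : S2 β γ = S2 β β + ((∑ l, sg j l * β l) - (∑ l, sg k l * β l)) := by
    have : S2 β γ = S2 β β + ∑ i, (∑ l, sg i l * β l) * dsp j k i := by
      unfold S2
      rw [← Finset.sum_add_distrib]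
      refine Finset.sum_congr rfl fun i _ => ?_
      rw [hγ i, mul_add]
    rw [this, sum_mul_dsp]
  rw [S2_self, zero_add] at h1
  have h2 : ∑ i, sg i k * γ i = ∑ i, sg i k * β i + (sg j k - sg k k) := by
    rw [← sum_mul_dsp (fun i => sg i k) j k, ← Finset.sum_add_distrib]
    refine Finset.sum_congr rfl fun i _ => ?_
    rw [hγ i, mul_add]
  have hkk : sg k k = 0 := by unfold sg; simp
  have hdk : dsp j k k = -1 := by unfold dsp; simp [hjk.symm]
  have hdj : dsp j k j = 1 := by unfold dsp; simp [hjk]
  have h3 : ∑ i, (γ i) ^ 2 = ∑ i, (β i) ^ 2 + 2 * (β j - β k) + 2 := by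
    have h4 : ∀ i, (γ i) ^ 2 = (β i) ^ 2 + ((2 * β i) * dsp j k i + dsp j k i * dsp j k i) := by
      intro i; rw [hγ i]; ring
    rw [Finset.sum_congr rfl fun i _ => h4 i, Finset.sum_add_distrib, Finset.sum_add_distrib,
      sum_mul_dsp (fun i => 2 * β i) j k, sum_mul_dsp (fun i => dsp j k i) j k, hdk, hdj]
    ring
  have h5 : γ k = β k - 1 := by rw [hγ k, hdk]; ring
  have h6 : ∑ l, β l * cc j k l = (∑ l, sg j l * β l) - (∑ l, sg k l * β l)
      + (1 - sg j k) * r - β k - β j := by
    have h7 : ∀ l, β l * cc j k l = sg j l * β l - sg k l * β l + (1 - sg j k) * β l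
        - (β l * (if l = k then 1 else 0)) - (β l * (if l = j then 1 else 0)) := by
      intro l; unfold cc; ring
    rw [Finset.sum_congr rfl fun l _ => h7 l, Finset.sum_sub_distrib, Finset.sum_sub_distrib,
      Finset.sum_add_distrib, Finset.sum_sub_distrib, ← Finset.mul_sum, hβ]
    simp
  unfold pot
  rw [h1, h2, h3, h5, h6, hkk]
  ring

/-- integer valued multiplicities -/
def ic (s : Sym (Fin (n + 1)) r) (j : Fin (n + 1)) : ℤ := (cnt s j : ℤ)

theorem sum_ic (s : Sym (Fin (n + 1)) r) : ∑ j, ic s j = r := by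
  unfold ic
  rw [← Nat.cast_sum, sum_cnt]

/-- weights of the variables -/
def wv (v : Sym (Fin (n + 1)) r × Fin (n + 1)) : ℤ ×ₗ ℤ :=
  toLex (-2 * ic v.1 v.2, 2 * ∑ j, sg v.2 j * ic v.1 j)

/-- weight of the monomial `γ` in the variables attached to `β` -/
def WW (β γ : Sym (Fin (n + 1)) r) : ℤ ×ₗ ℤ :=
  toLex (-2 * S1 (ic β) (ic γ), 2 * S2 (ic β) (ic γ))

/-- row potential -/
def uu (k : Fin (n + 1)) (β : Sym (Fin (n + 1)) r) : ℤ ×ₗ ℤ :=
  toLex (2 * ic β k - ∑ j, (ic β j) ^ 2, - pot r k (ic β))

/-- column potential -/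
def vv (k : Fin (n + 1)) (γ : Sym (Fin (n + 1)) r) : ℤ ×ₗ ℤ :=
  toLex (-2 * ic γ k - ∑ j, (ic γ j) ^ 2, pot r k (ic γ))

theorem first_identity (k : Fin (n + 1)) (β γ : Fin (n + 1) → ℤ) :
    -2 * S1 β γ - (2 * β k - ∑ j, (β j) ^ 2 + (-2 * γ k - ∑ j, (γ j) ^ 2)) =
      ∑ j, (γ j - β j) ^ 2 + 2 * (γ k - β k) := by
  have : ∀ j, (γ j - β j) ^ 2 = (γ j) ^ 2 - 2 * (β j * γ j) + (β j) ^ 2 := by intro j; ring
  rw [Finset.sum_congr rfl fun j _ => this j, Finset.sum_add_distrib, Finset.sum_sub_distrib,
    ← Finset.mul_sum]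
  unfold S1
  ring

theorem key_le (k : Fin (n + 1)) (β γ : Sym (Fin (n + 1)) r) :
    uu k β + vv k γ ≤ WW β γ ∧ (uu k β + vv k γ = WW β γ ↔ Tight k β γ) := by
  have hd : ∑ j, (ic γ j - ic β j) = 0 := by
    rw [Finset.sum_sub_distrib, sum_ic, sum_ic, sub_self]
  have hid := first_identity k (ic β) (ic γ)
  have hnn := disp_nonneg (fun j => ic γ j - ic β j) hd k
  have e1 : uu k β + vv k γ = toLex (2 * ic β k - ∑ j, (ic β j) ^ 2 +
      (-2 * ic γ k - ∑ j, (ic γ j) ^ 2), - pot r k (ic β) + pot r k (ic γ)) := rfl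
  rw [e1]
  have hpos : ∀ (j : Fin (n + 1)), j ≠ k → 0 ≤ ∑ l, ic β l * cc j k l := by
    intro j hjk
    apply Finset.sum_nonneg
    intro l _
    apply mul_nonneg
    · exact Int.natCast_nonneg _
    · rcases cc_cases j k l hjk with h | h <;> omega
  have hzero : ∀ (j : Fin (n + 1)), j ≠ k → (∑ l, ic β l * cc j k l = 0 ↔
      ∀ l, cyc j l k → cnt β l = 0) := by
    intro j hjk
    rw [Finset.sum_eq_zero_iff_of_nonneg]
    · constructor
      · intro h l hl
        have h1 := h l (Finset.mem_univ _)
        rcases cc_cases j k l hjk with h2 | h2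
        · rw [h2.2] at h1
          have : ic β l = 0 := by omega
          unfold ic at this
          exact_mod_cast this
        · exact absurd hl h2.1
      · intro h l _
        rcases cc_cases j k l hjk with h2 | h2
        · have := h l h2.1
          unfold ic
          rw [this]
          simp
        · rw [h2.2, mul_zero]
    · intro l _
      apply mul_nonneg
      · exact Int.natCast_nonneg _
      · rcases cc_cases j k l hjk with h | h <;> omega
  -- case distinction on the first component
  rcases eq_or_lt_of_le hnn with h0 | h0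
  · -- tie in the first component
    have hfst : 2 * ic β k - ∑ j, (ic β j) ^ 2 + (-2 * ic γ k - ∑ j, (ic γ j) ^ 2)
        = -2 * S1 (ic β) (ic γ) := by linarith
    have hcase := disp_eq (fun j => ic γ j - ic β j) hd k h0.symm
    rcases hcase with hc | ⟨hk, j, hjk, hj, hother⟩
    · have hβγ : β = γ := by
        apply ext_cnt
        intro j
        have := hc j
        unfold ic at this
        omega
      subst hβγ
      have hsnd : - pot r k (ic β) + pot r k (ic β) = 2 * S2 (ic β) (ic β) := by
        rw [S2_self]; ring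
      have heq : (toLex (2 * ic β k - ∑ j, (ic β j) ^ 2 + (-2 * ic β k - ∑ j, (ic β j) ^ 2),
          - pot r k (ic β) + pot r k (ic β)) : ℤ ×ₗ ℤ) = WW β β := by
        unfold WW
        rw [hfst, hsnd]
      exact ⟨heq.le, fun _ => Or.inl rfl, fun _ => heq⟩
    · have hγ : ∀ i, ic γ i = ic β i + dsp j k i := by
        intro i
        unfold dsp
        by_cases hij : i = j
        · subst hij
          rw [if_pos rfl, if_neg hjk]
          linarith
        · by_cases hik : i = k
          · subst hik
            rw [if_neg hij, if_pos rfl]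
            linarith
          · rw [if_neg hij, if_neg hik]
            have := hother i hij hik
            linarith
      have hβk : 1 ≤ cnt β k := by
        have h1 : (0 : ℤ) ≤ ic γ k := Int.natCast_nonneg _
        have h2 : ic β k = (cnt β k : ℤ) := rfl
        omega
      have hγmv : γ = mv β j k := by
        apply ext_cnt
        intro i
        have h1 := hγ i
        rw [cnt_mv hβk hjk]
        unfold dsp ic at h1
        by_cases hij : i = j
        · subst hij
          rw [if_pos rfl, if_neg hjk] at h1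
          rw [if_pos rfl]
          omega
        · by_cases hik : i = k
          · subst hik
            rw [if_neg hij, if_pos rfl] at h1
            rw [if_neg hij, if_pos rfl]
            omega
          · rw [if_neg hij, if_neg hik] at h1
            rw [if_neg hij, if_neg hik]
            omega
      have hsecond := second_identity (r : ℤ) j k hjk (ic β) (ic γ) (sum_ic β) hγ
      have hle2 : - pot r k (ic β) + pot r k (ic γ) ≤ 2 * S2 (ic β) (ic γ) := by
        have := hpos j hjk
        linarith
      constructor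
      · unfold WW
        rw [Prod.Lex.toLex_le_toLex]
        right
        exact ⟨hfst, hle2⟩
      · constructor
        · intro he
          have h1 : - pot r k (ic β) + pot r k (ic γ) = 2 * S2 (ic β) (ic γ) := by
            have := congrArg (fun x : ℤ ×ₗ ℤ => (ofLex x).2) he
            exact this
          right
          refine ⟨j, hjk, hβk, hγmv, ?_⟩
          rw [← hzero j hjk]
          linarith
        · intro ht
          have h1 : ∀ l, cyc j l k → cnt β l = 0 := by
            rcases ht with ht | ⟨j', hjk', -, hmv, hc'⟩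
            · exfalso
              rw [ht] at hk
              omega
            · have hjj : j' = j := by
                by_contra hne
                have h2 : cnt γ j = cnt β j := by
                  rw [hmv, cnt_mv_other hβk hjk' (fun h => hne h.symm) hjk]
                have h3 : ic γ j = ic β j := by unfold ic; rw [h2]
                rw [h3] at hj
                omega
              rw [← hjj]
              exact hc'
          rw [← hzero j hjk] at h1
          have h2 : - pot r k (ic β) + pot r k (ic γ) = 2 * S2 (ic β) (ic γ) := by linarith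
          unfold WW
          rw [hfst, h2]
  · have hlt : 2 * ic β k - ∑ j, (ic β j) ^ 2 + (-2 * ic γ k - ∑ j, (ic γ j) ^ 2)
        < -2 * S1 (ic β) (ic γ) := by linarith
    constructor
    · unfold WW
      rw [Prod.Lex.toLex_le_toLex]
      left
      exact hlt
    · constructor
      · intro he
        have h1 := congrArg (fun x : ℤ ×ₗ ℤ => (ofLex x).1) he
        have h2 : 2 * ic β k - ∑ j, (ic β j) ^ 2 + (-2 * ic γ k - ∑ j, (ic γ j) ^ 2)
          = -2 * S1 (ic β) (ic γ) := h1
        exfalso
        omega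
      · intro ht
        exfalso
        rcases ht with ht | ⟨j, hjk, hβk, hmv, -⟩
        · subst ht
          simp at h0
        · have hγ : ∀ i, ic γ i - ic β i = dsp j k i := by
            intro i
            unfold dsp ic
            rw [hmv, cnt_mv hβk hjk]
            by_cases hij : i = j
            · subst hij
              rw [if_pos rfl, if_pos rfl, if_neg hjk]
              omega
            · by_cases hik : i = k
              · subst hik
                rw [if_neg hij, if_pos rfl, if_neg hij, if_pos rfl]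
                omega
              · rw [if_neg hij, if_neg hik, if_neg hij, if_neg hik]
                omega
          have h1 : ∑ i, (ic γ i - ic β i) ^ 2 = 2 := by
            have h2 : ∀ i, (ic γ i - ic β i) ^ 2 = dsp j k i * dsp j k i := by
              intro i; rw [hγ i]; ring
            rw [Finset.sum_congr rfl fun i _ => h2 i, sum_mul_dsp (fun i => dsp j k i) j k]
            unfold dsp
            simp [hjk, hjk.symm]
          have h2 : ic γ k - ic β k = -1 := by
            rw [hγ k]; unfold dsp; simp [hjk.symm]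
          rw [h1, h2] at h0
          omega

end Pool.Agent.LibVeronese
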