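import Mathlib
import Pool.Agent.LibVeronese.Init
import Pool.Agent.LibVeronese.GenericSurj
import Pool.Agent.LibVeronese.Weights
import Pool.Agent.LibVeronese.Kernel

set_option autoImplicit false

namespace Pool.Agent.LibVeronese

open MvPolynomial

variable {n r : ℕ}

/-- product over a multiset as a product over all indices -/
theorem prod_ms {A : Type*} [CommMonoid A] (s : Sym (Fin (n + 1)) r) (f : Fin (n + 1) → A) :
    ((ms s).map f).prod = ∏ j, f j ^ cnt s j := by
  classical
  rw [Finset.prod_multiset_map_count]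
  apply Finset.prod_subset (Finset.subset_univ _)
  intro x _ hx
  have : (ms s).count x = 0 := by
    rw [Multiset.count_eq_zero]
    intro h
    exact hx (Multiset.mem_toFinset.mpr h)
  rw [this, pow_zero]

/-- exponent of the monomial `γ` in the variables attached to `β` -/
noncomputable def exv (β γ : Sym (Fin (n + 1)) r) : (Sym (Fin (n + 1)) r × Fin (n + 1)) →₀ ℕ :=
  ∑ j, Finsupp.single (β, j) (cnt γ j)

theorem exv_apply (β γ β' : Sym (Fin (n + 1)) r) (j : Fin (n + 1)) :
    exv β γ (β', j) = if β' = β then cnt γ j else 0 := by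
  classical
  unfold exv
  rw [Finsupp.finsetSum_apply]
  by_cases h : β' = β
  · subst h
    rw [if_pos rfl, Finset.sum_eq_single j]
    · simp
    · intro b _ hb
      rw [Finsupp.single_apply, if_neg]
      intro h2
      exact hb (Prod.ext_iff.mp h2).2
    · intro h; exact absurd (Finset.mem_univ _) h
  · rw [if_neg h]
    apply Finset.sum_eq_zero
    intro b _
    rw [Finsupp.single_apply, if_neg]
    intro h2
    exact h (Prod.ext_iff.mp h2).1.symm

/-- the generic Veronese matrix -/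
noncomputable def VX (n r : ℕ) : Matrix (Sym (Fin (n + 1)) r) (Sym (Fin (n + 1)) r)
    (MvPolynomial (Sym (Fin (n + 1)) r × Fin (n + 1)) ℂ) :=
  fun β γ => ((ms γ).map fun j => X (β, j)).prod

theorem VX_eq (β γ : Sym (Fin (n + 1)) r) : VX n r β γ = monomial (exv β γ) 1 := by
  unfold VX exv
  rw [prod_ms, MvPolynomial.monomial_sum_one]
  refine Finset.prod_congr rfl fun j _ => ?_
  rw [X_pow_eq_monomial]

/-- the minors -/
noncomputable def MM (k : Fin (n + 1)) (α : Sym (Fin (n + 1)) r) :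
    MvPolynomial (Sym (Fin (n + 1)) r × Fin (n + 1)) ℂ :=
  ((VX n r).updateRow α (Pi.single (rep r k) 1)).det

/-- exponent attached to a permutation -/
noncomputable def ee (α : Sym (Fin (n + 1)) r) (σ : Equiv.Perm (Sym (Fin (n + 1)) r)) :
    (Sym (Fin (n + 1)) r × Fin (n + 1)) →₀ ℕ :=
  ∑ β ∈ Finset.univ.erase α, exv β (σ β)

theorem ee_apply (α : Sym (Fin (n + 1)) r) (σ : Equiv.Perm (Sym (Fin (n + 1)) r))
    (β : Sym (Fin (n + 1)) r) (j : Fin (n + 1)) :
    ee α σ (β, j) = if β = α then 0 else cnt (σ β) j := by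
  classical
  unfold ee
  rw [Finsupp.finsetSum_apply]
  rw [Finset.sum_congr rfl fun γ _ => exv_apply γ (σ γ) β j]
  by_cases h : β = α
  · rw [if_pos h]
    apply Finset.sum_eq_zero
    intro γ hγ
    rw [if_neg]
    intro h2
    apply (Finset.mem_erase.mp hγ).1
    rw [← h2, h]
  · rw [if_neg h, Finset.sum_eq_single β]
    · rw [if_pos rfl]
    · intro γ _ hγ
      rw [if_neg (fun h2 => hγ h2.symm)]
    · intro h2
      exact absurd (Finset.mem_erase.mpr ⟨h, Finset.mem_univ _⟩) h2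

theorem ee_inj {α : Sym (Fin (n + 1)) r} {σ τ : Equiv.Perm (Sym (Fin (n + 1)) r)}
    (h : ee α σ = ee α τ) (hα : σ α = τ α) : σ = τ := by
  ext β : 1
  by_cases hβ : β = α
  · rw [hβ, hα]
  · apply ext_cnt
    intro j
    have h1 : ee α σ (β, j) = ee α τ (β, j) := by rw [h]
    rw [ee_apply, ee_apply, if_neg hβ, if_neg hβ] at h1
    exact h1

theorem MM_expand (k : Fin (n + 1)) (α : Sym (Fin (n + 1)) r) :
    MM k α = ∑ σ : Equiv.Perm (Sym (Fin (n + 1)) r),
      if σ α = rep r k then monomial (ee α σ) ((Equiv.Perm.sign σ : ℤ) : ℂ) else 0 := by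
  classical
  unfold MM
  rw [← Matrix.det_transpose, Matrix.det_apply']
  refine Finset.sum_congr rfl fun σ _ => ?_
  have h1 : (∏ β, ((VX n r).updateRow α (Pi.single (rep r k) 1)).transpose (σ β) β) =
      if σ α = rep r k then monomial (ee α σ) 1 else 0 := by
    rw [← Finset.mul_prod_erase Finset.univ _ (Finset.mem_univ α)]
    have h2 : ∏ β ∈ Finset.univ.erase α,
        ((VX n r).updateRow α (Pi.single (rep r k) 1)).transpose (σ β) β =
        monomial (ee α σ) 1 := by
      unfold ee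
      rw [MvPolynomial.monomial_sum_one]
      refine Finset.prod_congr rfl fun β hβ => ?_
      rw [Matrix.transpose_apply, Matrix.updateRow_ne (Finset.mem_erase.mp hβ).1, VX_eq]
    rw [h2, Matrix.transpose_apply, Matrix.updateRow_self]
    by_cases h3 : σ α = rep r k
    · rw [if_pos h3, h3, Pi.single_eq_same, one_mul]
    · rw [if_neg h3, Pi.single_eq_of_ne h3, zero_mul]
  rw [h1]
  by_cases h3 : σ α = rep r k
  · rw [if_pos h3, if_pos h3]
    have : (((Equiv.Perm.sign σ : ℤ) : MvPolynomial (Sym (Fin (n + 1)) r × Fin (n + 1)) ℂ)) =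
      C ((Equiv.Perm.sign σ : ℤ) : ℂ) := by simp
    rw [this, C_mul_monomial, mul_one]
  · rw [if_neg h3, if_neg h3, mul_zero]

theorem coeff_MM (k : Fin (n + 1)) (α : Sym (Fin (n + 1)) r)
    (F : (Sym (Fin (n + 1)) r × Fin (n + 1)) →₀ ℕ) :
    coeff F (MM k α) = ∑ σ : Equiv.Perm (Sym (Fin (n + 1)) r),
      if σ α = rep r k ∧ ee α σ = F then ((Equiv.Perm.sign σ : ℤ) : ℂ) else 0 := by
  classical
  rw [MM_expand, MvPolynomial.coeff_sum]
  refine Finset.sum_congr rfl fun σ _ => ?_
  by_cases h3 : σ α = rep r k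
  · rw [if_pos h3, coeff_monomial]
    by_cases h4 : ee α σ = F
    · rw [if_pos h4, if_pos ⟨h3, h4⟩]
    · rw [if_neg h4, if_neg (fun h => h4 h.2)]
  · rw [if_neg h3, coeff_zero, if_neg (fun h => h3 h.1)]

theorem wt_exv (β γ : Sym (Fin (n + 1)) r) : wt (wv (n := n) (r := r)) (exv β γ) = WW β γ := by
  unfold exv
  rw [map_sum]
  have h : ∀ j : Fin (n + 1), wt (wv (n := n) (r := r)) (Finsupp.single (β, j) (cnt γ j)) =
      toLex ((-2 * ic β j) * ic γ j, (2 * ∑ i, sg j i * ic β i) * ic γ j) := by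
    intro j
    show Finsupp.linearCombination ℕ wv (Finsupp.single (β, j) (cnt γ j)) = _
    rw [Finsupp.linearCombination_single]
    unfold wv
    show toLex (cnt γ j • (-2 * ic β j), cnt γ j • (2 * ∑ i, sg j i * ic β i)) = _
    rw [nsmul_eq_mul, nsmul_eq_mul, mul_comm, mul_comm (cnt γ j : ℤ)]
    rfl
  rw [Finset.sum_congr rfl fun j _ => h j]
  have h2 : ∀ (s : Finset (Fin (n + 1))) (a b : Fin (n + 1) → ℤ),
      ∑ j ∈ s, (toLex (a j, b j) : ℤ ×ₗ ℤ) = toLex (∑ j ∈ s, a j, ∑ j ∈ s, b j) := by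
    classical
    intro s a b
    induction s using Finset.induction_on with
    | empty => rfl
    | insert x s hx ih =>
      rw [Finset.sum_insert hx, Finset.sum_insert hx, Finset.sum_insert hx, ih]
      rfl
  rw [h2]
  unfold WW S1 S2
  congr 1
  rw [Finset.mul_sum, Finset.mul_sum]
  congr 1
  · exact Finset.sum_congr rfl fun j _ => by ring
  · exact Finset.sum_congr rfl fun j _ => by ring

theorem wt_ee (α : Sym (Fin (n + 1)) r) (σ : Equiv.Perm (Sym (Fin (n + 1)) r)) :
    wt (wv (n := n) (r := r)) (ee α σ) = ∑ β ∈ Finset.univ.erase α, WW β (σ β) := by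
  unfold ee
  rw [map_sum]
  exact Finset.sum_congr rfl fun β _ => wt_exv β (σ β)

theorem sum_pot (k : Fin (n + 1)) (α : Sym (Fin (n + 1)) r)
    (σ : Equiv.Perm (Sym (Fin (n + 1)) r)) (hσ : σ α = rep r k) :
    ∑ β ∈ Finset.univ.erase α, (uu k β + vv k (σ β)) =
      ∑ β ∈ Finset.univ.erase α, uu k β + (∑ γ : Sym (Fin (n + 1)) r, vv k γ - vv k (rep r k)) := by
  rw [Finset.sum_add_distrib]
  congr 1
  rw [← Equiv.sum_comp σ (vv k), ← Finset.add_sum_erase _ _ (Finset.mem_univ α), hσ]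
  abel

theorem wt_lt (k : Fin (n + 1)) (α : Sym (Fin (n + 1)) r)
    (σ : Equiv.Perm (Sym (Fin (n + 1)) r)) (hσ : σ α = rep r k) (hne : σ ≠ opt k α) :
    wt (wv (n := n) (r := r)) (ee α (opt k α)) < wt (wv (n := n) (r := r)) (ee α σ) := by
  rw [wt_ee, wt_ee]
  have h1 := opt_spec k α
  have h2 : ∑ β ∈ Finset.univ.erase α, WW β (opt k α β) =
      ∑ β ∈ Finset.univ.erase α, (uu k β + vv k (opt k α β)) := by
    refine Finset.sum_congr rfl fun β hβ => ?_
    exact ((key_le k β (opt k α β)).2.mpr (h1.2 β (Finset.mem_erase.mp hβ).1)).symm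
  rw [h2, sum_pot k α _ h1.1, ← sum_pot k α σ hσ]
  have h3 : ∃ β, β ≠ α ∧ ¬ Tight k β (σ β) := by
    by_contra hcon
    push Not at hcon
    exact hne (opt_unique ⟨hσ, hcon⟩)
  obtain ⟨β, hβ, ht⟩ := h3
  apply Finset.sum_lt_sum
  · intro γ _
    exact (key_le k γ (σ γ)).1
  · refine ⟨β, Finset.mem_erase.mpr ⟨hβ, Finset.mem_univ _⟩, ?_⟩
    exact lt_of_le_of_ne (key_le k β (σ β)).1 (fun h => ht ((key_le k β (σ β)).2.mp h))

theorem isInit_MM (k : Fin (n + 1)) (α : Sym (Fin (n + 1)) r) :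
    IsInit (wv (n := n) (r := r)) (MM k α) (ee α (opt k α)) := by
  classical
  constructor
  · rw [coeff_MM, Finset.sum_eq_single (opt k α)]
    · rw [if_pos ⟨(opt_spec k α).1, rfl⟩]
      rcases Int.units_eq_one_or (Equiv.Perm.sign (opt k α)) with h | h <;> rw [h] <;> simp
    · intro σ _ hσ
      rw [if_neg]
      rintro ⟨h1, h2⟩
      exact hσ (ee_inj h2 (by rw [h1, (opt_spec k α).1]))
    · intro h
      exact absurd (Finset.mem_univ _) h
  · intro F hF hne
    rw [coeff_MM] at hF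
    obtain ⟨σ, -, hσ⟩ := Finset.exists_ne_zero_of_sum_ne_zero hF
    by_cases h : σ α = rep r k ∧ ee α σ = F
    · rw [← h.2]
      apply wt_lt k α σ h.1
      rintro rfl
      exact hne h.2.symm
    · rw [if_neg h] at hσ
      exact absurd rfl hσ

/-- the exponents of the initial monomials are independent -/
theorem ee_indep (hn : 1 ≤ n) (hr : 1 ≤ r)
    (u v : (Sym (Fin (n + 1)) r × Fin (n + 1)) →₀ ℕ)
    (h : (u.sum fun i a => a • ee i.1 (opt i.2 i.1)) = (v.sum fun i a => a • ee i.1 (opt i.2 i.1))) :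
    u = v := by
  classical
  let A : Matrix (Sym (Fin (n + 1)) r × Fin (n + 1)) (Sym (Fin (n + 1)) r × Fin (n + 1)) ℚ :=
    fun i i' => ((ee i.1 (opt i.2 i.1) i' : ℕ) : ℚ)
  have hdet : A.det ≠ 0 := by
    intro h0
    obtain ⟨η, hη0, hη⟩ := Matrix.exists_mulVec_eq_zero_iff.mpr h0
    apply hη0
    have h1 := kernel_zero (fun β j => η (β, j)) hn hr (by
      intro k α
      have h2 := congrFun hη (α, k)
      have h3 : (A.mulVec η) (α, k) = TT (fun β j => η (β, j)) α (opt k α) := by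
        unfold TT pr
        show ∑ i, A (α, k) i * η i = _
        rw [Fintype.sum_prod_type]
        refine Finset.sum_congr rfl fun β _ => ?_
        by_cases hβ : β = α
        · rw [if_pos hβ]
          apply Finset.sum_eq_zero
          intro j _
          show ((ee α (opt k α) (β, j) : ℕ) : ℚ) * _ = 0
          rw [ee_apply, if_pos hβ]
          simp
        · rw [if_neg hβ]
          refine Finset.sum_congr rfl fun j _ => ?_
          show ((ee α (opt k α) (β, j) : ℕ) : ℚ) * _ = _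
          rw [ee_apply, if_neg hβ]
      rw [← h3, h2]
      rfl)
    ext ⟨β, j⟩
    exact h1 β j
  have hinj : Function.Injective (fun w => Matrix.vecMul w A) := by
    apply Matrix.vecMul_injective_iff_isUnit.mpr
    exact (Matrix.isUnit_iff_isUnit_det _).mpr (isUnit_iff_ne_zero.mpr hdet)
  have hcoord : ∀ w : (Sym (Fin (n + 1)) r × Fin (n + 1)) →₀ ℕ, ∀ i',
      Matrix.vecMul (fun i => (w i : ℚ)) A i' =
        (((w.sum fun i a => a • ee i.1 (opt i.2 i.1)) i' : ℕ) : ℚ) := by
    intro w i'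
    rw [Finsupp.sum_fintype w (fun i a => a • ee i.1 (opt i.2 i.1)) (fun i => zero_smul _ _),
      Finsupp.finsetSum_apply]
    show ∑ i, (w i : ℚ) * A i i' = _
    rw [Nat.cast_sum]
    refine Finset.sum_congr rfl fun i _ => ?_
    show ((w i : ℕ) : ℚ) * ((ee i.1 (opt i.2 i.1) i' : ℕ) : ℚ) =
      ((w i * ee i.1 (opt i.2 i.1) i' : ℕ) : ℚ)
    exact (Nat.cast_mul _ _).symm
  have h4 : (fun i => (u i : ℚ)) = (fun i => (v i : ℚ)) := by
    apply hinj
    funext i'
    show Matrix.vecMul (fun i => (u i : ℚ)) A i' = Matrix.vecMul (fun i => (v i : ℚ)) A i'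
    rw [hcoord u i', hcoord v i', h]
  ext i
  have := congrFun h4 i
  exact_mod_cast this

theorem algebraicIndependent_MM (hn : 1 ≤ n) (hr : 1 ≤ r) :
    AlgebraicIndependent ℂ
      (fun i : Sym (Fin (n + 1)) r × Fin (n + 1) => MM i.2 i.1) :=
  algebraicIndependent_of_init wv _ (fun i => ee i.1 (opt i.2 i.1))
    (fun i => isInit_MM i.2 i.1) (ee_indep hn hr)

end Pool.Agent.LibVeronese
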