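import Mathlib
import Pool.Agent.LibVeronese.Det

set_option autoImplicit false

namespace Pool.Agent.LibVeronese

open MvPolynomial

variable {n r : ℕ}

theorem det_VX_ne_zero (n r : ℕ) : (VX n r).det ≠ 0 := by
  classical
  have hexp : (VX n r).det = ∑ σ : Equiv.Perm (Sym (Fin (n + 1)) r),
      monomial (∑ β, exv β (σ β)) ((Equiv.Perm.sign σ : ℤ) : ℂ) := by
    rw [← Matrix.det_transpose, Matrix.det_apply']
    refine Finset.sum_congr rfl fun σ _ => ?_
    have h1 : (∏ β, (VX n r).transpose (σ β) β) = monomial (∑ β, exv β (σ β)) 1 := by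
      rw [MvPolynomial.monomial_sum_one]
      refine Finset.prod_congr rfl fun β _ => ?_
      rw [Matrix.transpose_apply, VX_eq]
    rw [h1]
    have : (((Equiv.Perm.sign σ : ℤ) : MvPolynomial (Sym (Fin (n + 1)) r × Fin (n + 1)) ℂ)) =
      C ((Equiv.Perm.sign σ : ℤ) : ℂ) := by simp
    rw [this, C_mul_monomial, mul_one]
  have happ : ∀ (σ : Equiv.Perm (Sym (Fin (n + 1)) r)) (β : Sym (Fin (n + 1)) r)
      (j : Fin (n + 1)), (∑ β, exv β (σ β)) (β, j) = cnt (σ β) j := by
    intro σ β j
    rw [Finsupp.finsetSum_apply, Finset.sum_congr rfl fun γ _ => exv_apply γ (σ γ) β j,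
      Finset.sum_eq_single β]
    · rw [if_pos rfl]
    · intro γ _ hγ
      rw [if_neg (fun h2 => hγ h2.symm)]
    · intro h2
      exact absurd (Finset.mem_univ _) h2
  have hc : coeff (∑ β, exv β ((1 : Equiv.Perm (Sym (Fin (n + 1)) r)) β)) (VX n r).det = 1 := by
    rw [hexp, MvPolynomial.coeff_sum, Finset.sum_eq_single 1]
    · rw [coeff_monomial, if_pos rfl]
      simp
    · intro σ _ hσ
      rw [coeff_monomial, if_neg]
      intro he
      apply hσ
      ext β : 1
      apply ext_cnt
      intro j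
      rw [← happ σ β j, he, happ]
    · intro h2
      exact absurd (Finset.mem_univ _) h2
  intro h0
  rw [h0, coeff_zero] at hc
  exact zero_ne_one hc

/-- the Veronese vector -/
def ver (r : ℕ) (x : Fin (n + 1) → ℂ) : Sym (Fin (n + 1)) r → ℂ := fun s => ((ms s).map x).prod

theorem ver_single (k : Fin (n + 1)) : ver r (Pi.single k 1) = Pi.single (rep r k) 1 := by
  classical
  funext s
  unfold ver
  rw [prod_ms]
  by_cases hs : s = rep r k
  · subst hs
    rw [Pi.single_eq_same]
    apply Finset.prod_eq_one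
    intro j _
    by_cases hj : j = k
    · subst hj
      rw [Pi.single_eq_same, one_pow]
    · rw [cnt_rep_ne hj, pow_zero]
  · rw [Pi.single_eq_of_ne hs]
    have : ∃ j, j ≠ k ∧ cnt s j ≠ 0 := by
      by_contra hcon
      push Not at hcon
      exact hs (eq_rep_of_cnt hcon)
    obtain ⟨j, hj, hcj⟩ := this
    apply Finset.prod_eq_zero (Finset.mem_univ j)
    rw [Pi.single_eq_of_ne hj, zero_pow hcj]

theorem ver_zero (hr : 1 ≤ r) : ver r (0 : Fin (n + 1) → ℂ) = 0 := by
  funext s
  unfold ver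
  rw [prod_ms]
  have : ∃ j, cnt s j ≠ 0 := by
    by_contra hcon
    push Not at hcon
    have h1 : ∑ j, cnt s j = 0 := Finset.sum_eq_zero fun j _ => hcon j
    rw [sum_cnt] at h1
    omega
  obtain ⟨j, hcj⟩ := this
  apply Finset.prod_eq_zero (Finset.mem_univ j)
  rw [Pi.zero_apply, zero_pow hcj]

theorem veronese_interpolation (hn : 1 ≤ n) (hr : 1 ≤ r) :
      ∃ P : MvPolynomial (Fin (Nat.choose (n + r) r + n + 1) × Sym (Fin (n + 1)) r) ℂ,
        P ≠ 0 ∧
        ∀ v : Fin (Nat.choose (n + r) r + n + 1) → Sym (Fin (n + 1)) r → ℂ,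
          MvPolynomial.eval (fun p => v p.1 p.2) P ≠ 0 →
          ∃ g : (Sym (Fin (n + 1)) r → ℂ) ≃ₗ[ℂ] (Sym (Fin (n + 1)) r → ℂ),
            ∀ i, ∃ x : Fin (n + 1) → ℂ, x ≠ 0 ∧
              ∃ c : ℂ, c ≠ 0 ∧ v i = c • g (ver r x) := by
  classical
  have hcard : Fintype.card (Sym (Fin (n + 1)) r ⊕ Fin (n + 1)) =
      Nat.choose (n + r) r + n + 1 := by
    rw [Fintype.card_sum, Sym.card_sym_eq_choose, Fintype.card_fin]
    have : n + 1 + r - 1 = n + r := by omega
    rw [this]
    ring
  let e : Sym (Fin (n + 1)) r ⊕ Fin (n + 1) ≃ Fin (Nat.choose (n + r) r + n + 1) :=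
    Fintype.equivFinOfCardEq hcard
  obtain ⟨P0, hP0, hsurj⟩ := generic_surj _ (algebraicIndependent_MM hn hr) (VX n r).det
    (det_VX_ne_zero n r)
  let R := MvPolynomial (Fin (Nat.choose (n + r) r + n + 1) × Sym (Fin (n + 1)) r) ℂ
  let AX : Matrix (Sym (Fin (n + 1)) r) (Sym (Fin (n + 1)) r) R :=
    fun α s => X (e (Sum.inl α), s)
  let cX : Fin (n + 1) → Sym (Fin (n + 1)) r → R := fun k s => X (e (Sum.inr k), s)
  let bX : Sym (Fin (n + 1)) r × Fin (n + 1) → R :=
    fun i => Matrix.vecMul (cX i.2) AX.adjugate i.1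
  -- evaluation
  have heval : ∀ v : Fin (Nat.choose (n + r) r + n + 1) → Sym (Fin (n + 1)) r → ℂ,
      ∀ (A : Matrix (Sym (Fin (n + 1)) r) (Sym (Fin (n + 1)) r) ℂ)
        (_ : A = fun α s => v (e (Sum.inl α)) s)
        (b : Sym (Fin (n + 1)) r × Fin (n + 1) → ℂ)
        (_ : b = fun i => Matrix.vecMul (v (e (Sum.inr i.2))) A.adjugate i.1),
      eval (fun p => v p.1 p.2) (AX.det * aeval bX P0) = A.det * eval b P0 := by
    intro v A hA b hb
    have hAX : (eval (fun p => v p.1 p.2) : R →+* ℂ).mapMatrix AX = A := by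
      ext α s
      rw [hA]
      show eval (fun p => v p.1 p.2) (X (e (Sum.inl α), s)) = v (e (Sum.inl α)) s
      rw [eval_X]
    rw [map_mul, RingHom.map_det, hAX]
    congr 1
    have h1 : eval (fun p => v p.1 p.2) (aeval bX P0) =
        eval (fun i => eval (fun p => v p.1 p.2) (bX i)) P0 := by
      rw [← MvPolynomial.coe_aeval_eq_eval, ← MvPolynomial.coe_aeval_eq_eval]
      show (MvPolynomial.aeval (fun p => v p.1 p.2)) (aeval bX P0) = _
      rw [← AlgHom.comp_apply, MvPolynomial.comp_aeval]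
      rfl
    rw [h1]
    congr 2
    funext i
    rw [hb]
    show eval (fun p => v p.1 p.2) (∑ s, cX i.2 s * AX.adjugate s i.1) = _
    rw [map_sum]
    show _ = ∑ s, v (e (Sum.inr i.2)) s * A.adjugate s i.1
    refine Finset.sum_congr rfl fun s _ => ?_
    rw [map_mul]
    congr 1
    · simp [cX]
    · rw [← hAX, ← RingHom.map_adjugate]
      rfl
  refine ⟨AX.det * aeval bX P0, ?_, ?_⟩
  · -- nonvanishing
    intro h0
    apply hP0
    apply MvPolynomial.funext
    intro b0
    rw [map_zero]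
    let v0 : Fin (Nat.choose (n + r) r + n + 1) → Sym (Fin (n + 1)) r → ℂ := fun i =>
      Sum.elim (fun α => (Pi.single α 1 : Sym (Fin (n + 1)) r → ℂ)) (fun k α => b0 (α, k))
        (e.symm i)
    have h1 := heval v0 1 (by
      funext α s
      show (1 : Matrix (Sym (Fin (n + 1)) r) (Sym (Fin (n + 1)) r) ℂ) α s = v0 (e (Sum.inl α)) s
      simp only [v0, Equiv.symm_apply_apply, Sum.elim_inl]
      rw [Matrix.one_apply, Pi.single_apply]
      by_cases h : α = s
      · rw [if_pos h, if_pos h.symm]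
      · rw [if_neg h, if_neg (fun h' => h h'.symm)]) b0 (by
      funext i
      simp only [v0, Equiv.symm_apply_apply, Sum.elim_inr, Matrix.adjugate_one, Matrix.vecMul_one])
    rw [h0, map_zero, Matrix.det_one, one_mul] at h1
    exact h1.symm
  · intro v hv
    obtain ⟨A, hA⟩ : ∃ A : Matrix (Sym (Fin (n + 1)) r) (Sym (Fin (n + 1)) r) ℂ,
      A = fun α s => v (e (Sum.inl α)) s := ⟨_, rfl⟩
    obtain ⟨b, hb⟩ : ∃ b : Sym (Fin (n + 1)) r × Fin (n + 1) → ℂ,
      b = fun i => Matrix.vecMul (v (e (Sum.inr i.2))) A.adjugate i.1 := ⟨_, rfl⟩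
    rw [heval v A hA b hb] at hv
    have hdetA : A.det ≠ 0 := left_ne_zero_of_mul hv
    obtain ⟨x, hx, hxD⟩ := hsurj b (right_ne_zero_of_mul hv)
    obtain ⟨V, hV⟩ : ∃ V : Matrix (Sym (Fin (n + 1)) r) (Sym (Fin (n + 1)) r) ℂ,
      V = (eval x : _ →+* ℂ).mapMatrix (VX n r) := ⟨_, rfl⟩
    have hVrow : ∀ α, V α = ver r (fun j => x (α, j)) := by
      intro α
      funext γ
      rw [hV]
      show eval x ((VX n r) α γ) = _
      unfold VX ver
      rw [map_multiset_prod, Multiset.map_map]
      simp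
    have hdetV : V.det ≠ 0 := by
      rw [hV, ← RingHom.map_det]
      exact hxD
    have hadj : ∀ k α, V.adjugate (rep r k) α = b (α, k) := by
      intro k α
      rw [← hx (α, k)]
      show _ = eval x (MM k α)
      unfold MM
      rw [← Matrix.adjugate_apply, hV, ← RingHom.map_adjugate]
      rfl
    have hVu : IsUnit V.det := isUnit_iff_ne_zero.mpr hdetV
    have hAu : IsUnit A.det := isUnit_iff_ne_zero.mpr hdetA
    let g : (Sym (Fin (n + 1)) r → ℂ) ≃ₗ[ℂ] (Sym (Fin (n + 1)) r → ℂ) :=
      { toFun := fun u => Matrix.vecMul u (V⁻¹ * A)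
        map_add' := fun u w => Matrix.add_vecMul _ u w
        map_smul' := fun c u => Matrix.smul_vecMul _ _ _
        invFun := fun u => Matrix.vecMul u (A⁻¹ * V)
        left_inv := fun u => by
          show Matrix.vecMul (Matrix.vecMul u (V⁻¹ * A)) (A⁻¹ * V) = u
          rw [Matrix.vecMul_vecMul]
          have : V⁻¹ * A * (A⁻¹ * V) = 1 := by
            rw [Matrix.mul_assoc, ← Matrix.mul_assoc A, Matrix.mul_nonsing_inv A hAu,
              Matrix.one_mul, Matrix.nonsing_inv_mul V hVu]
          rw [this, Matrix.vecMul_one]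
        right_inv := fun u => by
          show Matrix.vecMul (Matrix.vecMul u (A⁻¹ * V)) (V⁻¹ * A) = u
          rw [Matrix.vecMul_vecMul]
          have : A⁻¹ * V * (V⁻¹ * A) = 1 := by
            rw [Matrix.mul_assoc, ← Matrix.mul_assoc V, Matrix.mul_nonsing_inv V hVu,
              Matrix.one_mul, Matrix.nonsing_inv_mul A hAu]
          rw [this, Matrix.vecMul_one] }
    have hg : ∀ u, g u = Matrix.vecMul u (V⁻¹ * A) := fun u => rfl
    refine ⟨g, ?_⟩
    intro i
    obtain ⟨i', rfl⟩ := e.surjective i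
    rcases i' with α | k
    · refine ⟨fun j => x (α, j), ?_, 1, one_ne_zero, ?_⟩
      · intro h0
        apply hdetV
        apply Matrix.det_eq_zero_of_row_eq_zero α
        intro γ
        have h1 : V α γ = ver r (fun j => x (α, j)) γ := congrFun (hVrow α) γ
        rw [h1, h0, ver_zero hr]
        rfl
      · rw [one_smul, hg, ← hVrow α]
        have h1 : V α = Matrix.vecMul (Pi.single α 1) V := by
          rw [Matrix.single_one_vecMul]
          rfl
        rw [h1, Matrix.vecMul_vecMul, ← Matrix.mul_assoc, Matrix.mul_nonsing_inv V hVu,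
          Matrix.one_mul, Matrix.single_one_vecMul]
        rw [hA]
        rfl
    · refine ⟨Pi.single k 1, ?_, V.det / A.det, div_ne_zero hdetV hdetA, ?_⟩
      · intro h0
        have := congrFun h0 k
        simp at this
      · rw [hg, ver_single, ← Matrix.vecMul_vecMul, Matrix.single_one_vecMul]
        have h1 : V⁻¹.row (rep r k) = (V.det)⁻¹ • Matrix.vecMul (v (e (Sum.inr k))) A.adjugate := by
          funext α
          rw [Pi.smul_apply, smul_eq_mul]
          have h2 : Matrix.vecMul (v (e (Sum.inr k))) A.adjugate α = b (α, k) := by rw [hb]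
          rw [h2, ← hadj k α]
          show V⁻¹ (rep r k) α = _
          rw [Matrix.inv_def, Matrix.smul_apply, Ring.inverse_eq_inv', smul_eq_mul]
        rw [h1, Matrix.smul_vecMul, Matrix.vecMul_vecMul, Matrix.adjugate_mul,
          Matrix.vecMul_smul, Matrix.vecMul_one, smul_smul, smul_smul]
        have : V.det / A.det * (V.det)⁻¹ * A.det = 1 := by
          field_simp
        rw [this, one_smul]

end Pool.Agent.LibVeronese
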